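import Pool.Agent.H99.ADJ.Base

/-! # Project ADJ: assembly of the main theorem from the modules -/

set_option autoImplicit false

open MeasureTheory ProbabilityTheory Set Filter Topology
open scoped NNReal ENNReal NNRat

namespace Pool.ADJ

theorem Step.mono {K K' : Set Pl} (h : K ⊆ K') {u v : Pl} (hs : Step K' u v) : Step K u v := by
  obtain ⟨h1, h2, h3⟩ := hs
  have hc : K'ᶜ ⊆ Kᶜ := compl_subset_compl.2 h
  exact ⟨fun hu => h1 (h hu), fun hv => h2 (h hv), h3.mono (inter_subset_inter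
    (closure_mono (connectedComponentIn_mono _ hc)) (closure_mono (connectedComponentIn_mono _ hc)))⟩

theorem Linked.mono {K K' : Set Pl} (h : K ⊆ K') {u v : Pl} (hs : Linked K' u v) : Linked K u v :=
  Relation.ReflTransGen.mono (r := Step K') (p := Step K) (fun _ _ h' => Step.mono h h') _ _ hs

theorem LinkedInf.mono {K K' : Set Pl} (h : K ⊆ K') {z : Pl} (hs : LinkedInf K' z) :
    LinkedInf K z := by
  obtain ⟨y, h1, h2, h3⟩ := hs
  exact ⟨y, fun hy => h1 (h hy), fun hb => h2 (hb.subset (connectedComponentIn_mono _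
    (compl_subset_compl.2 h))), h3.mono h⟩

theorem tr_mono {Ω : Type} (B : ℝ → Ω → Pl) (ω : Ω) {s t s' t' : ℝ} (h1 : s ≤ s') (h2 : t' ≤ t) :
    tr B ω s' t' ⊆ tr B ω s t :=
  image_mono (Icc_subset_Icc h1 h2)

/-- the first alternative: all graphs are connected -/
def AltI {Ω : Type} [MeasurableSpace Ω] (μ : Measure Ω) (B : ℝ → Ω → Pl) : Prop :=
  ∀ᵐ ω ∂μ, ∀ s t : ℝ, 0 ≤ s → s < t → ∀ x y : Pl, x ∉ tr B ω s t → y ∉ tr B ω s t →
    Linked (tr B ω s t) x y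

/-- the second alternative, (a) -/
def AltA {Ω : Type} [MeasurableSpace Ω] (μ : Measure Ω) (B : ℝ → Ω → Pl) : Prop :=
  ∀ u : ℝ, 0 ≤ u → ∀ᵐ ω ∂μ, ∀ s t : ℝ, s ≤ u → u < t → ∀ ε : ℝ, 0 < ε →
    ∃ V ∈ 𝓝 (B u ω), ∀ z ∈ V, z ∉ tr B ω s t → ∀ y : Pl, Linked (tr B ω s t) z y →
      dist y (B u ω) < ε

/-- the second alternative, (b) -/
def AltB {Ω : Type} [MeasurableSpace Ω] (μ : Measure Ω) (B : ℝ → Ω → Pl) : Prop :=
  ∀ᵐ ω ∂μ, ∀ s t : ℝ, 0 ≤ s → s < t → ∀ O : Set Pl, IsOpen O → (O ∩ tr B ω s t).Nonempty →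
    ∃ x : ℕ → Pl, (∀ n, x n ∉ tr B ω s t) ∧
      (∀ m n, m ≠ n → ¬ Linked (tr B ω s t) (x m) (x n)) ∧
      ∀ n y, Linked (tr B ω s t) (x n) y → y ∈ O

theorem scal (h_MKV : S_MKV) {Ω : Type} [MeasurableSpace Ω] {μ : Measure Ω} {B : ℝ → Ω → Pl}
    (hB : PB μ B) {c : ℝ} (hc : 0 < c) (z : Pl) :
    μ {ω | LinkedInf (tr B ω 0 c) z} = μ {ω | LinkedInf (tr B ω 0 1) ((√c)⁻¹ • z)} := by
  have hp := hB.gp.isProbabilityMeasure
  have h := (h_MKV Ω μ B hB).2.2 Empty (fun i => i.elim) 0 c le_rfl hc (fun i => i.elim)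
    Set.univ MeasurableSet.univ z
  have e1 : {ω : Ω | (fun i : Empty => B (Empty.elim i) ω) ∈ (Set.univ : Set (Empty → Pl))} =
      Set.univ := by
    ext ω; simp
  rw [e1, Set.univ_inter, zero_add, setLIntegral_univ] at h
  rw [h]
  simp only [hB.zero, sub_zero, lintegral_const, measure_univ, mul_one]

theorem altI_of_one (h_MKV : S_MKV) (h_ONE : S_ONE) {Ω : Type} [MeasurableSpace Ω]
    {μ : Measure Ω} {B : ℝ → Ω → Pl} (hB : PB μ B)
    (h : ∀ x : Pl, x ≠ 0 → μ {ω | LinkedInf (tr B ω 0 1) x} = 1) : AltI μ B := by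
  have hp := hB.gp.isProbabilityMeasure
  have key : ∀ᵐ ω ∂μ, ∀ (n : ℕ) (x : Fin 2 → ℚ), x ≠ 0 →
      LinkedInf ((fun u => B u ω) '' Set.Icc 0 ((n : ℝ) + 1)) (fun i => (x i : ℝ)) := by
    rw [ae_all_iff]
    intro n
    rw [ae_all_iff]
    intro x
    by_cases hx : x = 0
    · exact ae_of_all _ fun ω h => absurd hx h
    · have hx' : (fun i => (x i : ℝ)) ≠ (0 : Pl) := by
        intro h0
        apply hx
        funext i
        have := congrFun h0 i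
        simpa using this
      have hn : (0 : ℝ) < (n : ℝ) + 1 := by positivity
      have h1 := scal h_MKV hB hn (fun i => (x i : ℝ))
      rw [h _ (smul_ne_zero (by positivity) hx')] at h1
      have h2 : MeasurableSet {ω | LinkedInf (tr B ω 0 ((n : ℝ) + 1)) (fun i => (x i : ℝ))} :=
        (h_MKV Ω μ B hB).1 0 _ le_rfl hn.le _
      have h3 := (prob_compl_eq_zero_iff h2).2 h1
      filter_upwards [(compl_mem_ae_iff.2 h3)] with ω hω _
      exact not_not.1 hω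
  filter_upwards [key] with ω hω
  refine h_ONE (fun u => B u ω) (hB.cont ω) fun n x hx => ?_
  refine (hω n x hx).mono (image_mono (Icc_subset_Icc le_rfl ?_))
  linarith

theorem altA_of_iter (h_AFF : S_AFF) (h_SEP : S_SEP) (h_INV : S_INV) (h_TWA : S_TWA)
    (h_it : ∀ (Ω : Type) [MeasurableSpace Ω] (μ : Measure Ω) (B : ℝ → Ω → Pl), PB μ B → Iter μ B)
    {Ω : Type} [MeasurableSpace Ω] {μ : Measure Ω} {B : ℝ → Ω → Pl} (hB : PB μ B) :
    AltA μ B := by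
  intro u hu
  have hB' := h_AFF Ω μ B hB u 1 hu one_pos
  have h1 := h_SEP Ω μ _ hB' (h_it Ω μ _ hB')
  filter_upwards [h1] with ω hω
  refine h_TWA (fun u => B u ω) (hB.cont ω) u fun n => ?_
  obtain ⟨a, b, ha, hab, hb, h2, h3⟩ := hω n
  refine ⟨a, b, ha, hab, hb, ?_, ?_⟩
  · rintro ⟨v, hv, hv2⟩
    apply h2
    refine ⟨v - u, ⟨by linarith [hv.1], by linarith [hv.2]⟩, ?_⟩
    simp only at hv2 ⊢
    rw [show u + 1 * (v - u) = v by ring, hv2, sub_self, smul_zero]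
  · intro h4
    apply h3
    have h5 := (h_INV (Homeomorph.addRight (-(B u ω))) (fun A hA => ?_) (fun A hA => ?_)
      ((fun u => B u ω) '' Set.Icc (u + a) (u + b)) (B u ω)).2 h4
    · have e1 : (Homeomorph.addRight (-(B u ω))) (B u ω) = 0 := by simp
      have e2 : (Homeomorph.addRight (-(B u ω))) '' ((fun u => B u ω) '' Set.Icc (u + a) (u + b)) =
          tr (fun t ω => (√1)⁻¹ • (B (u + 1 * t) ω - B u ω)) ω a b := by
        unfold tr
        rw [image_image]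
        ext y
        constructor
        · rintro ⟨v, hv, rfl⟩
          refine ⟨v - u, ⟨by linarith [hv.1], by linarith [hv.2]⟩, ?_⟩
          simp only [Real.sqrt_one, inv_one, one_smul, Homeomorph.coe_addRight]
          rw [show u + 1 * (v - u) = v by ring, sub_eq_add_neg]
        · rintro ⟨v, hv, rfl⟩
          refine ⟨u + v, ⟨by linarith [hv.1], by linarith [hv.2]⟩, ?_⟩
          simp only [Real.sqrt_one, inv_one, one_smul, Homeomorph.coe_addRight, one_mul]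
          rw [sub_eq_add_neg]
      rwa [e1, e2] at h5
    · obtain ⟨R, hR⟩ := hA.exists_norm_le
      refine isBounded_iff_forall_norm_le.2 ⟨R + ‖B u ω‖, ?_⟩
      rintro y ⟨x, hx, rfl⟩
      calc ‖x + -(B u ω)‖ ≤ ‖x‖ + ‖-(B u ω)‖ := norm_add_le _ _
        _ ≤ R + ‖B u ω‖ := by rw [norm_neg]; linarith [hR x hx]
    · obtain ⟨R, hR⟩ := hA.exists_norm_le
      refine isBounded_iff_forall_norm_le.2 ⟨R + ‖B u ω‖, ?_⟩
      rintro y ⟨x, hx, rfl⟩
      have e : (Homeomorph.addRight (-(B u ω))).symm x = x + B u ω := by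
        rw [Homeomorph.symm_apply_eq]
        simp
      rw [e]
      calc ‖x + B u ω‖ ≤ ‖x‖ + ‖B u ω‖ := norm_add_le _ _
        _ ≤ R + ‖B u ω‖ := by linarith [hR x hx]

theorem altB_of_altA (h_POL : S_POL) (h_TWB : S_TWB) {Ω : Type} [MeasurableSpace Ω]
    {μ : Measure Ω} {B : ℝ → Ω → Pl} (hB : PB μ B) (h : AltA μ B) : AltB μ B := by
  have h1 : ∀ᵐ ω ∂μ, ∀ (m n : ℕ) (x : Fin 2 → ℚ),
      (fun i => (x i : ℝ)) ∉ tr B ω (1 / ((m : ℝ) + 1)) (1 / ((m : ℝ) + 1) + ((n : ℝ) + 1)) := by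
    rw [ae_all_iff]
    intro m
    rw [ae_all_iff]
    intro n
    rw [ae_all_iff]
    intro x
    have hm : (0 : ℝ) < 1 / ((m : ℝ) + 1) := by positivity
    have hn : 1 / ((m : ℝ) + 1) < 1 / ((m : ℝ) + 1) + ((n : ℝ) + 1) := by
      have : (0 : ℝ) < (n : ℝ) + 1 := by positivity
      linarith
    have h2 := h_POL Ω μ B hB _ _ hm hn (fun i => (x i : ℝ))
    filter_upwards [(compl_mem_ae_iff.2 h2)] with ω hω
    exact hω
  have h2 : ∀ᵐ ω ∂μ, ∀ q : ℚ≥0, ∀ s t : ℝ, s ≤ q → (q : ℝ) < t → ∀ ε : ℝ, 0 < ε →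
      ∃ V ∈ 𝓝 (B q ω), ∀ z ∈ V, z ∉ tr B ω s t → ∀ y : Pl, Linked (tr B ω s t) z y →
        dist y (B q ω) < ε := by
    rw [ae_all_iff]
    intro q
    exact h q (by positivity)
  filter_upwards [h1, h2] with ω hω1 hω2
  refine h_TWB (fun u => B u ω) (hB.cont ω) ?_ (fun q s t _ hs ht ε hε => hω2 q s t hs ht ε hε)
  rintro n x hx ⟨v, hv, hv2⟩
  have hx' : (fun i => (x i : ℝ)) ≠ (0 : Pl) := by
    intro h0
    apply hx
    funext i
    have := congrFun h0 i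
    simpa using this
  have hv0 : 0 < v := by
    rcases hv.1.lt_or_eq with h | h
    · exact h
    · exfalso
      apply hx'
      rw [← hv2, ← h]
      exact hB.zero ω
  obtain ⟨m, hm⟩ := exists_nat_one_div_lt hv0
  apply hω1 m n x
  refine ⟨v, ⟨hm.le, ?_⟩, hv2⟩
  have : (0 : ℝ) < 1 / ((m : ℝ) + 1) := by positivity
  linarith [hv.2]

/-- the main theorem for `PB` -/
theorem core (h_AFF : S_AFF) (h_POL : S_POL) (h_INV : S_INV) (h_HLW : S_HLW) (h_MKV : S_MKV)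
    (h_ZON : S_ZON) (h_ITR : S_ITR) (h_SEP : S_SEP) (h_DEC : S_DEC) (h_ONE : S_ONE)
    (h_TWA : S_TWA) (h_TWB : S_TWB) :
    (∀ (Ω : Type) [MeasurableSpace Ω] (μ : Measure Ω) (B : ℝ → Ω → Pl), PB μ B → AltI μ B) ∨
    ∃ C α : ℝ, 0 < C ∧ 0 < α ∧
      ∀ (Ω : Type) [MeasurableSpace Ω] (μ : Measure Ω) (B : ℝ → Ω → Pl), PB μ B →
        AltA μ B ∧ AltB μ B ∧ ∀ (t : ℝ) (z : Pl), 0 < t →
          μ {ω | LinkedInf (tr B ω 0 t) z} ≤ ENNReal.ofReal (C * (‖z‖ ^ 2 / t) ^ α) := by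
  by_cases hex : ∀ (Ω : Type) [MeasurableSpace Ω] (μ : Measure Ω) (B : ℝ → Ω → Pl), PB μ B →
      ∀ x : Pl, x ≠ 0 → μ {ω | LinkedInf (tr B ω 0 1) x} = 1
  · left
    intro Ω _ μ B hB
    exact altI_of_one h_MKV h_ONE hB (hex Ω μ B hB)
  · right
    have h_it : ∀ (Ω : Type) [MeasurableSpace Ω] (μ : Measure Ω) (B : ℝ → Ω → Pl), PB μ B →
        Iter μ B := by
      intro Ω _ μ B hB
      refine h_ITR Ω μ B hB ?_
      rcases h_ZON Ω μ B hB with h | h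
      · exfalso
        apply hex
        intro Ω' _ μ' B' hB' x hx
        rw [← h_HLW Ω μ B Ω' μ' B' hB hB' x]
        exact h x hx
      · exact h
    have hex2 : ∃ (Ω : Type) (_ : MeasurableSpace Ω) (μ : Measure Ω) (B : ℝ → Ω → Pl), PB μ B := by
      by_contra hcon
      apply hex
      intro Ω _ μ B hB
      exact absurd ⟨Ω, _, μ, B, hB⟩ hcon
    obtain ⟨Ω₀, _, μ₀, B₀, hB₀⟩ := hex2
    obtain ⟨C, α, hC, hα, h⟩ := h_DEC Ω₀ μ₀ B₀ hB₀ (h_it Ω₀ μ₀ B₀ hB₀)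
    refine ⟨C, α, hC, hα, fun Ω _ μ B hB => ?_⟩
    have hA := altA_of_iter h_AFF h_SEP h_INV h_TWA h_it hB
    refine ⟨hA, altB_of_altA h_POL h_TWB hB hA, fun t z ht => ?_⟩
    rw [scal h_MKV hB ht, h_HLW Ω μ B Ω₀ μ₀ B₀ hB hB₀]
    refine (h _).trans (le_of_eq ?_)
    rw [norm_smul, mul_pow, norm_inv, Real.norm_of_nonneg (Real.sqrt_nonneg t), inv_pow,
      Real.sq_sqrt ht.le, div_eq_inv_mul]

/-- the main theorem -/
theorem main0 (h_CPL : S_CPL) (h_AFF : S_AFF) (h_POL : S_POL) (h_INV : S_INV) (h_HLW : S_HLW)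
    (h_MKV : S_MKV) (h_ZON : S_ZON) (h_ITR : S_ITR) (h_SEP : S_SEP) (h_DEC : S_DEC)
    (h_ONE : S_ONE) (h_TWA : S_TWA) (h_TWB : S_TWB) :
    (∀ (Ω : Type) [MeasurableSpace Ω] (μ : Measure Ω) [IsProbabilityMeasure μ] (B : ℝ → Ω → Pl),
      IsPBM μ B → AltI μ B) ∨
    ∃ C α : ℝ, 0 < C ∧ 0 < α ∧
      ∀ (Ω : Type) [MeasurableSpace Ω] (μ : Measure Ω) [IsProbabilityMeasure μ]
        (B : ℝ → Ω → Pl), IsPBM μ B →
        AltA μ B ∧ AltB μ B ∧ ∀ (t : ℝ) (z : Pl), 0 < t →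
          μ {ω | LinkedInf (tr B ω 0 t) z} ≤ ENNReal.ofReal (C * (‖z‖ ^ 2 / t) ^ α) := by
  rcases core h_AFF h_POL h_INV h_HLW h_MKV h_ZON h_ITR h_SEP h_DEC h_ONE h_TWA h_TWB with h | h
  · left
    intro Ω _ μ _ B hB
    have h1 := h (NullMeasurableSpace Ω μ) μ.completion B (h_CPL Ω μ B hB)
    unfold AltI at h1 ⊢
    rw [Measure.ae_completion] at h1
    exact h1
  · right
    obtain ⟨C, α, hC, hα, h⟩ := h
    refine ⟨C, α, hC, hα, fun Ω _ μ _ B hB => ?_⟩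
    obtain ⟨h1, h2, h3⟩ := h (NullMeasurableSpace Ω μ) μ.completion B (h_CPL Ω μ B hB)
    refine ⟨fun u hu => ?_, ?_, fun t z ht => ?_⟩
    · have := h1 u hu
      rw [Measure.ae_completion] at this
      exact this
    · unfold AltB at h2 ⊢
      rw [Measure.ae_completion] at h2
      exact h2
    · have e := Measure.completion_apply μ {ω | LinkedInf (tr B ω 0 t) z}
      exact e.symm.le.trans (h3 t z ht)

end Pool.ADJ
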