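import Pool.Agent.H99.ADJ.Defs

/-!
# Project ADJ (MP_ec6b2f_pr): the adjacency graph of the complementary components of planar
Brownian motion. Definitions and statements of the modules.
-/

set_option autoImplicit false

open MeasureTheory ProbabilityTheory Set Filter Topology
open scoped NNReal ENNReal NNRat

namespace Pool.ADJ

/-- planar Brownian motion as a Gaussian process, with measurable marginals -/
structure PB {Ω : Type} [MeasurableSpace Ω] (μ : Measure Ω) (B : ℝ → Ω → Pl) : Prop where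
  zero : ∀ ω, B 0 ω = 0
  cont : ∀ ω, Continuous (fun t => B t ω)
  meas : ∀ t, 0 ≤ t → Measurable (B t)
  gp : IsGaussianProcess (fun (p : ℝ≥0 × Fin 2) (ω : Ω) => B (p.1 : ℝ) ω p.2) μ
  mean : ∀ p : ℝ≥0 × Fin 2, ∫ ω, B (p.1 : ℝ) ω p.2 ∂μ = 0
  cov : ∀ p q : ℝ≥0 × Fin 2, cov[fun ω => B (p.1 : ℝ) ω p.2, fun ω => B (q.1 : ℝ) ω q.2; μ] =
    if p.2 = q.2 then ((min p.1 q.1 : ℝ≥0) : ℝ) else 0

/-- the rotation by the angle `θ` -/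
noncomputable def rot (θ : ℝ) (x : Pl) : Pl :=
  ![Real.cos θ * x 0 - Real.sin θ * x 1, Real.sin θ * x 0 + Real.cos θ * x 1]

/-- the path at the nonnegative rational times -/
def path {Ω : Type} (B : ℝ → Ω → Pl) (ω : Ω) : ℚ≥0 → Pl := fun q => B (q : ℝ) ω

/-! ### statements of the modules -/

/-- CPL: the completion of the probability space makes all marginals measurable -/
def S_CPL : Prop := ∀ (Ω : Type) [MeasurableSpace Ω] (μ : Measure Ω) [IsProbabilityMeasure μ]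
  (B : ℝ → Ω → Pl), IsPBM μ B → PB (Ω := NullMeasurableSpace Ω μ) μ.completion B

/-- AFF: scaling and the Markov property (the law) -/
def S_AFF : Prop := ∀ (Ω : Type) [MeasurableSpace Ω] (μ : Measure Ω) (B : ℝ → Ω → Pl), PB μ B →
  ∀ a c : ℝ, 0 ≤ a → 0 < c → PB μ (fun t ω => (√c)⁻¹ • (B (a + c * t) ω - B a ω))

/-- ROT: rotation invariance -/
def S_ROT : Prop := ∀ (Ω : Type) [MeasurableSpace Ω] (μ : Measure Ω) (B : ℝ → Ω → Pl), PB μ B →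
  ∀ θ : ℝ, PB μ (fun t ω => rot θ (B t ω))

/-- IND: the Markov property (independence) -/
def S_IND : Prop := ∀ (Ω : Type) [MeasurableSpace Ω] (μ : Measure Ω) (B : ℝ → Ω → Pl), PB μ B →
  ∀ (ι κ : Type) [Countable ι] [Countable κ] (t : ι → ℝ) (s : κ → ℝ) (a : ℝ), 0 ≤ a →
    (∀ i, 0 ≤ t i ∧ t i ≤ a) → (∀ j, 0 ≤ s j) →
    IndepFun (fun ω i => B (t i) ω) (fun ω j => B (a + s j) ω - B a ω) μ

/-- LAW: the law of the path at rational times is unique -/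
def S_LAW : Prop := ∀ (Ω : Type) [MeasurableSpace Ω] (μ : Measure Ω) (B : ℝ → Ω → Pl)
  (Ω' : Type) [MeasurableSpace Ω'] (μ' : Measure Ω') (B' : ℝ → Ω' → Pl), PB μ B → PB μ' B' →
  μ.map (path B) = μ'.map (path B')

/-- POL: points are polar -/
def S_POL : Prop := ∀ (Ω : Type) [MeasurableSpace Ω] (μ : Measure Ω) (B : ℝ → Ω → Pl), PB μ B →
  ∀ a b : ℝ, 0 < a → a < b → ∀ z : Pl, μ {ω | z ∈ tr B ω a b} = 0

/-- MEA: measurability -/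
def S_MEA : Prop := ∀ (ι : Type) [Countable ι],
  MeasurableSet {p : Pl × (ι → Pl) | LinkedInf (closure (Set.range p.2)) p.1}

/-- EXT: the exterior of a disk -/
def S_EXT : Prop :=
  (∀ (K : Set Pl) (a : Pl) (r : ℝ), K ⊆ Metric.closedBall a r → ∀ x y : Pl,
    x ∉ Metric.closedBall a r → y ∉ Metric.closedBall a r →
      ¬ Bornology.IsBounded (connectedComponentIn Kᶜ x) ∧
        connectedComponentIn Kᶜ x = connectedComponentIn Kᶜ y) ∧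
  ∀ K : Set Pl, Bornology.IsBounded K → ∀ x y : Pl, x ∉ K → y ∉ K →
    ¬ Bornology.IsBounded (connectedComponentIn Kᶜ x) →
    ¬ Bornology.IsBounded (connectedComponentIn Kᶜ y) →
      connectedComponentIn Kᶜ x = connectedComponentIn Kᶜ y

/-- INV: invariance under homeomorphisms which preserve bounded sets -/
def S_INV : Prop := ∀ φ : Pl ≃ₜ Pl, (∀ A : Set Pl, Bornology.IsBounded A →
    Bornology.IsBounded (φ '' A)) → (∀ A : Set Pl, Bornology.IsBounded A →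
    Bornology.IsBounded (φ.symm '' A)) →
  ∀ (K : Set Pl) (x : Pl), LinkedInf (φ '' K) (φ x) ↔ LinkedInf K x

/-- HLW: the one-point function does not depend on the Brownian motion -/
def S_HLW : Prop := ∀ (Ω : Type) [MeasurableSpace Ω] (μ : Measure Ω) (B : ℝ → Ω → Pl)
  (Ω' : Type) [MeasurableSpace Ω'] (μ' : Measure Ω') (B' : ℝ → Ω' → Pl), PB μ B → PB μ' B' →
  ∀ x : Pl, μ {ω | LinkedInf (tr B ω 0 1) x} = μ' {ω | LinkedInf (tr B' ω 0 1) x}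

/-- MKV: the Markov property for the event `LinkedInf` -/
def S_MKV : Prop := ∀ (Ω : Type) [MeasurableSpace Ω] (μ : Measure Ω) (B : ℝ → Ω → Pl), PB μ B →
  (∀ a b : ℝ, 0 ≤ a → a ≤ b → ∀ z : Pl, MeasurableSet {ω | LinkedInf (tr B ω a b) z}) ∧
  (Measurable fun x : Pl => μ {ω | LinkedInf (tr B ω 0 1) x}) ∧
  ∀ (ι : Type) [Countable ι] (t : ι → ℝ) (a c : ℝ), 0 ≤ a → 0 < c →
    (∀ i, 0 ≤ t i ∧ t i ≤ a) → ∀ S : Set (ι → Pl), MeasurableSet S → ∀ z : Pl,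
    μ ({ω | (fun i => B (t i) ω) ∈ S} ∩ {ω | LinkedInf (tr B ω a (a + c)) z}) =
      ∫⁻ ω in {ω | (fun i => B (t i) ω) ∈ S},
        μ {ω' | LinkedInf (tr B ω' 0 1) ((√c)⁻¹ • (z - B a ω))} ∂μ

/-- RAD: the one-point function is radial and monotone -/
def S_RAD : Prop := ∀ (Ω : Type) [MeasurableSpace Ω] (μ : Measure Ω) (B : ℝ → Ω → Pl), PB μ B →
  ∀ x y : Pl, x 0 ^ 2 + x 1 ^ 2 ≤ y 0 ^ 2 + y 1 ^ 2 →
    μ {ω | LinkedInf (tr B ω 0 1) x} ≤ μ {ω | LinkedInf (tr B ω 0 1) y}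

/-- ZON: the zero-one law -/
def S_ZON : Prop := ∀ (Ω : Type) [MeasurableSpace Ω] (μ : Measure Ω) (B : ℝ → Ω → Pl), PB μ B →
  (∀ x : Pl, x ≠ 0 → μ {ω | LinkedInf (tr B ω 0 1) x} = 1) ∨
  ∃ δ : ℝ, 0 < δ ∧ ∀ x : Pl, ‖x‖ < δ → μ {ω | LinkedInf (tr B ω 0 1) x} ≤ 1 / 4

/-- the conclusion of the iteration -/
def Iter {Ω : Type} [MeasurableSpace Ω] (μ : Measure Ω) (B : ℝ → Ω → Pl) : Prop :=
  ∃ L : ℝ, 1 < L ∧ ∃ C : ℝ, 0 ≤ C ∧ ∀ (z : Pl) (s : ℝ), 0 < s → ∀ n : ℕ,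
    μ {ω | ∀ j < n, LinkedInf (tr B ω (L ^ j * s) (L ^ (j + 1) * s)) z} ≤
      ENNReal.ofReal (C * (1 + ‖z‖ ^ 2 / s) / 2 ^ n)

/-- ITR: the iteration -/
def S_ITR : Prop := ∀ (Ω : Type) [MeasurableSpace Ω] (μ : Measure Ω) (B : ℝ → Ω → Pl), PB μ B →
  (∃ δ : ℝ, 0 < δ ∧ ∀ x : Pl, ‖x‖ < δ → μ {ω | LinkedInf (tr B ω 0 1) x} ≤ 1 / 4) → Iter μ B

/-- SEP: separation at arbitrarily small scales -/
def S_SEP : Prop := ∀ (Ω : Type) [MeasurableSpace Ω] (μ : Measure Ω) (B : ℝ → Ω → Pl), PB μ B →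
  Iter μ B → ∀ᵐ ω ∂μ, ∀ n : ℕ, ∃ a b : ℝ, 0 < a ∧ a < b ∧ b ≤ 1 / (n + 1) ∧
    (0 : Pl) ∉ tr B ω a b ∧ ¬ LinkedInf (tr B ω a b) 0

/-- DEC: polynomial decay -/
def S_DEC : Prop := ∀ (Ω : Type) [MeasurableSpace Ω] (μ : Measure Ω) (B : ℝ → Ω → Pl), PB μ B →
  Iter μ B → ∃ C α : ℝ, 0 < C ∧ 0 < α ∧ ∀ x : Pl,
    μ {ω | LinkedInf (tr B ω 0 1) x} ≤ ENNReal.ofReal (C * (‖x‖ ^ 2) ^ α)

/-- ONE: deterministic part of the connected case -/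
def S_ONE : Prop := ∀ f : ℝ → Pl, Continuous f →
  (∀ (n : ℕ) (x : Fin 2 → ℚ), x ≠ 0 → LinkedInf (f '' Set.Icc 0 n) (fun i => (x i : ℝ))) →
  ∀ s t : ℝ, 0 ≤ s → s < t → ∀ x y : Pl, x ∉ f '' Set.Icc s t → y ∉ f '' Set.Icc s t →
    Linked (f '' Set.Icc s t) x y

/-- TWA: deterministic part of the disconnected case, (a) -/
def S_TWA : Prop := ∀ f : ℝ → Pl, Continuous f → ∀ u : ℝ,
  (∀ n : ℕ, ∃ a b : ℝ, 0 < a ∧ a < b ∧ b ≤ 1 / (n + 1) ∧ f u ∉ f '' Set.Icc (u + a) (u + b) ∧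
    ¬ LinkedInf (f '' Set.Icc (u + a) (u + b)) (f u)) →
  ∀ s t : ℝ, s ≤ u → u < t → ∀ ε : ℝ, 0 < ε → ∃ V ∈ 𝓝 (f u), ∀ z ∈ V, z ∉ f '' Set.Icc s t →
    ∀ y : Pl, Linked (f '' Set.Icc s t) z y → dist y (f u) < ε

/-- TWB: deterministic part of the disconnected case, (b) -/
def S_TWB : Prop := ∀ f : ℝ → Pl, Continuous f →
  (∀ (n : ℕ) (x : Fin 2 → ℚ), x ≠ 0 → (fun i => (x i : ℝ)) ∉ f '' Set.Icc 0 n) →
  (∀ q : ℚ≥0, ∀ s t : ℝ, 0 ≤ s → s ≤ q → (q : ℝ) < t → ∀ ε : ℝ, 0 < ε → ∃ V ∈ 𝓝 (f q), ∀ z ∈ V,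
    z ∉ f '' Set.Icc s t → ∀ y : Pl, Linked (f '' Set.Icc s t) z y → dist y (f q) < ε) →
  ∀ s t : ℝ, 0 ≤ s → s < t → ∀ O : Set Pl, IsOpen O → (O ∩ f '' Set.Icc s t).Nonempty →
    ∃ x : ℕ → Pl, (∀ n, x n ∉ f '' Set.Icc s t) ∧
      (∀ m n, m ≠ n → ¬ Linked (f '' Set.Icc s t) (x m) (x n)) ∧
      ∀ n y, Linked (f '' Set.Icc s t) (x n) y → y ∈ O

end Pool.ADJ
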