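import Pool.Agent.H99.ADJ.EVT

/-! # Project ADJ, second part: balls instead of points. Statements of the modules. -/

set_option autoImplicit false

open MeasureTheory ProbabilityTheory Set Filter Topology
open scoped NNReal ENNReal NNRat

namespace Pool.ADJ

/-- some point of the ball with centre `0` and radius `r` is linked to infinity -/
def BallInf (K : Set Pl) (r : ℝ) : Prop := ∃ z : Pl, ‖z‖ < r ∧ LinkedInf K z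

/-- GMK: the general Markov property at the time `a`, for the path after `a`, scaled by `c` -/
def S_GMK : Prop := ∀ (Ω : Type) [MeasurableSpace Ω] (μ : Measure Ω) (B : ℝ → Ω → Pl), PB μ B →
  ∀ (ι : Type) [Countable ι] (t : ι → ℝ) (a c : ℝ), 0 ≤ a → 0 < c →
    (∀ i, 0 ≤ t i ∧ t i ≤ a) → ∀ S : Set (ι → Pl), MeasurableSet S →
    ∀ G : Set (Pl × (ℚ≥0 → Pl)), MeasurableSet G →
    μ ({ω | (fun i => B (t i) ω) ∈ S} ∩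
        {ω | (B a ω, path (fun u ω => (√c)⁻¹ • (B (a + c * u) ω - B a ω)) ω) ∈ G}) =
      ∫⁻ ω in {ω | (fun i => B (t i) ω) ∈ S}, μ {ω' | (B a ω, path B ω') ∈ G} ∂μ

/-- ZO2: the zero-one law -/
def S_ZO2 : Prop := ∀ (Ω : Type) [MeasurableSpace Ω] (μ : Measure Ω) (B : ℝ → Ω → Pl), PB μ B →
  (∀ x : Pl, x ≠ 0 → μ {ω | LinkedInf (tr B ω 0 1) x} = 1) ∨
  ∀ ε : ℝ≥0∞, 0 < ε → ∃ δ : ℝ, 0 < δ ∧ ∀ x : Pl, ‖x‖ < δ → μ {ω | LinkedInf (tr B ω 0 1) x} ≤ ε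

/-- MEB: measurability of the ball event, on an interval -/
def S_MEB : Prop := ∀ r : ℝ, ∃ S : Set (Q1 → Pl), MeasurableSet S ∧
    ∀ {Ω : Type} (B : ℝ → Ω → Pl) (ω : Ω), (Continuous fun t => B t ω) → ∀ a b : ℝ, a ≤ b →
      (BallInf (tr B ω a b) r ↔ (fun q : Q1 => B (a + (b - a) * ((q : ℚ≥0) : ℝ)) ω) ∈ S)

/-- HIT: small balls are hit with small probability, uniformly -/
def S_HIT : Prop := ∀ (Ω : Type) [MeasurableSpace Ω] (μ : Measure Ω) (B : ℝ → Ω → Pl), PB μ B →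
  ∀ b : ℝ, 1 < b → ∃ ρ : ℝ, 0 < ρ ∧ ∀ y : Pl,
    μ {ω | ∃ u ∈ Set.Icc (1 : ℝ) b, ‖B u ω - y‖ < ρ} ≤ ENNReal.ofReal (1 / 8 + ‖y‖ ^ 2 / 64)

/-- the conclusion of the iteration for balls -/
def IterB {Ω : Type} [MeasurableSpace Ω] (μ : Measure Ω) (B : ℝ → Ω → Pl) : Prop :=
  ∃ L : ℝ, 2 < L ∧ ∃ ρ : ℝ, 0 < ρ ∧ ∃ C : ℝ, 0 ≤ C ∧ ∀ s r : ℝ, 0 < s → r ≤ ρ * √s → ∀ n : ℕ,
    μ {ω | ∀ j < n, BallInf (tr B ω (2 * (L ^ j * s)) (L ^ (j + 1) * s)) r} ≤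
      ENNReal.ofReal (C / 2 ^ n)

/-- ITB: the iteration for balls -/
def S_ITB : Prop := ∀ (Ω : Type) [MeasurableSpace Ω] (μ : Measure Ω) (B : ℝ → Ω → Pl), PB μ B →
  (∃ δ : ℝ, 0 < δ ∧ ∀ x : Pl, ‖x‖ < δ → μ {ω | LinkedInf (tr B ω 0 1) x} ≤ 1 / 16) → IterB μ B

/-- SEB: separation at arbitrarily small scales -/
def S_SEB : Prop := ∀ (Ω : Type) [MeasurableSpace Ω] (μ : Measure Ω) (B : ℝ → Ω → Pl), PB μ B →
  IterB μ B → ∀ᵐ ω ∂μ, ∀ n : ℕ, ∃ a b r : ℝ, 0 < a ∧ a < b ∧ b ≤ 1 / (n + 1) ∧ 0 < r ∧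
    ¬ BallInf (tr B ω a b) r

/-- DEB: polynomial decay -/
def S_DEB : Prop := ∀ (Ω : Type) [MeasurableSpace Ω] (μ : Measure Ω) (B : ℝ → Ω → Pl), PB μ B →
  IterB μ B → ∃ C α : ℝ, 0 < C ∧ 0 < α ∧ ∀ r t : ℝ, 0 < r → 0 < t →
    μ {ω | BallInf (tr B ω 0 t) r} ≤ ENNReal.ofReal (C * (r ^ 2 / t) ^ α)

/-- TWC: deterministic part of the disconnected case -/
def S_TWC : Prop := ∀ f : ℝ → Pl, Continuous f → ∀ u : ℝ,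
  (∀ n : ℕ, ∃ a b r : ℝ, 0 < a ∧ a < b ∧ b ≤ 1 / (n + 1) ∧ 0 < r ∧
    ¬ BallInf ((fun y => y - f u) '' (f '' Set.Icc (u + a) (u + b))) r) →
  ∀ s t : ℝ, s ≤ u → u < t → ∀ ε : ℝ, 0 < ε → ∃ V ∈ 𝓝 (f u), ∀ z ∈ V, z ∉ f '' Set.Icc s t →
    ∀ y : Pl, Linked (f '' Set.Icc s t) z y → dist y (f u) < ε

end Pool.ADJ
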