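import Mathlib

/-!
# Adjacency graph of the complementary components of planar Brownian motion (MP_ec6b2f_pr):
the definitions used in the hand-in. They unfold to the hypotheses and to the chain relation of the
frozen statement S19721.
-/

set_option autoImplicit false

open MeasureTheory ProbabilityTheory Set Filter Topology
open scoped NNReal ENNReal NNRat

namespace Pool.ADJ

/-- the plane (as in the frozen statement S19721) -/
abbrev Pl : Type := Fin 2 → ℝ

/-- one step of a chain: the closures of the components of `u` and `v` meet -/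
def Step (K : Set Pl) (u v : Pl) : Prop :=
  u ∉ K ∧ v ∉ K ∧
    (closure (connectedComponentIn Kᶜ u) ∩ closure (connectedComponentIn Kᶜ v)).Nonempty

/-- the components of `x` and `y` are joined by a finite chain -/
def Linked (K : Set Pl) : Pl → Pl → Prop := Relation.ReflTransGen (Step K)

/-- `z` is linked to an unbounded component -/
def LinkedInf (K : Set Pl) (z : Pl) : Prop :=
  ∃ y, y ∉ K ∧ ¬ Bornology.IsBounded (connectedComponentIn Kᶜ y) ∧ Linked K z y

/-- the trace on `[s, t]` -/
def tr {Ω : Type} (B : ℝ → Ω → Pl) (ω : Ω) (s t : ℝ) : Set Pl :=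
  (fun u => B u ω) '' Set.Icc s t

/-- planar Brownian motion, exactly the hypotheses of the frozen statement S19721 -/
structure IsPBM {Ω : Type} [MeasurableSpace Ω] (μ : Measure Ω) (B : ℝ → Ω → Pl) : Prop where
  zero : ∀ ω, B 0 ω = 0
  cont : ∀ ω, Continuous (fun t => B t ω)
  incr : ∀ (n : ℕ) (t : Fin (n + 1) → ℝ), StrictMono t → 0 ≤ t 0 →
    iIndepFun (fun (p : Fin n × Fin 2) (ω : Ω) =>
        B (t p.1.succ) ω p.2 - B (t p.1.castSucc) ω p.2) μ ∧
      ∀ (j : Fin n) (i : Fin 2),
        μ.map (fun ω => B (t j.succ) ω i - B (t j.castSucc) ω i) =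
          gaussianReal 0 (t j.succ - t j.castSucc).toNNReal

end Pool.ADJ
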