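import Pool.Agent.H99.ADJ.Fin0

/-! # Project ADJ: events on an interval are determined by countably many times -/

set_option autoImplicit false

open MeasureTheory ProbabilityTheory Set Filter Topology
open scoped NNReal ENNReal NNRat

namespace Pool.ADJ

/-- the rational parameters in `[0, 1]` -/
abbrev Q1 : Type := {q : ℚ≥0 // q ≤ 1}

theorem closure_range_Q1 (g : ℝ → Pl) (hg : Continuous g) :
    closure (Set.range (fun q : Q1 => g ((q : ℚ≥0) : ℝ))) = g '' Set.Icc 0 1 := by
  apply Subset.antisymm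
  · refine closure_minimal ?_ (isCompact_Icc.image hg).isClosed
    rintro y ⟨q, rfl⟩
    exact ⟨_, ⟨by positivity, by exact_mod_cast q.2⟩, rfl⟩
  · have hd : Set.Icc (0 : ℝ) 1 ⊆ closure (Set.range (fun q : Q1 => ((q : ℚ≥0) : ℝ))) := by
      intro x hx
      rw [Metric.mem_closure_iff]
      intro ε hε
      rcases hx.1.lt_or_eq with h0 | h0
      · obtain ⟨q, hq1, hq2⟩ := exists_rat_btwn (show max 0 (x - ε) < x from
          max_lt h0 (by linarith))
        have hq0 : (0 : ℝ) < q := (le_max_left _ _).trans_lt hq1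
        have hq0' : (0 : ℚ) ≤ q := by exact_mod_cast hq0.le
        have hq3 : x - ε < q := (le_max_right _ _).trans_lt hq1
        refine ⟨_, ⟨⟨⟨q, hq0'⟩, ?_⟩, rfl⟩, ?_⟩
        · have : (q : ℝ) ≤ 1 := hq2.le.trans hx.2
          have h1 : q ≤ 1 := by exact_mod_cast this
          exact h1
        · show dist x (((⟨q, hq0'⟩ : ℚ≥0) : ℝ)) < ε
          have e : (((⟨q, hq0'⟩ : ℚ≥0) : ℝ)) = (q : ℝ) := rfl
          rw [e, Real.dist_eq, abs_of_pos (by linarith)]
          linarith
      · refine ⟨_, ⟨⟨0, zero_le⟩, rfl⟩, ?_⟩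
        rw [← h0]
        simpa using hε
    have h1 : g '' Set.Icc 0 1 ⊆ g '' closure (Set.range (fun q : Q1 => ((q : ℚ≥0) : ℝ))) :=
      image_mono hd
    refine h1.trans ((image_closure_subset_closure_image hg).trans (closure_mono ?_))
    rintro y ⟨x, ⟨q, rfl⟩, rfl⟩
    exact ⟨q, rfl⟩

theorem tr_eq_closure {Ω : Type} (B : ℝ → Ω → Pl) (ω : Ω) (hc : Continuous fun t => B t ω)
    {a b : ℝ} (hab : a ≤ b) :
    tr B ω a b = closure (Set.range (fun q : Q1 => B (a + (b - a) * ((q : ℚ≥0) : ℝ)) ω)) := by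
  rw [closure_range_Q1 (fun x => B (a + (b - a) * x) ω) (hc.comp (by fun_prop))]
  unfold tr
  apply Subset.antisymm
  · rintro y ⟨u, hu, rfl⟩
    rcases hab.lt_or_eq with h | h
    · refine ⟨(u - a) / (b - a), ⟨?_, ?_⟩, ?_⟩
      · exact div_nonneg (by linarith [hu.1]) (by linarith)
      · rw [div_le_one (by linarith)]
        linarith [hu.2]
      · have : a + (b - a) * ((u - a) / (b - a)) = u := by
          have : b - a ≠ 0 := by linarith
          field_simp
          ring
        simp only [this]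
    · refine ⟨0, ⟨le_rfl, zero_le_one⟩, ?_⟩
      have : u = a := le_antisymm (hu.2.trans h.symm.le) hu.1
      simp [this]
  · rintro y ⟨x, hx, rfl⟩
    refine ⟨a + (b - a) * x, ⟨?_, ?_⟩, rfl⟩
    · have := mul_nonneg (sub_nonneg.2 hab) hx.1
      linarith
    · have := mul_le_mul_of_nonneg_left hx.2 (sub_nonneg.2 hab)
      linarith

/-- the event `LinkedInf` on `[a, b]` in terms of the values at countably many times -/
theorem evt (h_MEA : S_MEA) (z : Pl) : ∃ S : Set (Q1 → Pl), MeasurableSet S ∧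
    ∀ {Ω : Type} (B : ℝ → Ω → Pl) (ω : Ω), (Continuous fun t => B t ω) → ∀ a b : ℝ, a ≤ b →
      (LinkedInf (tr B ω a b) z ↔
        (fun q : Q1 => B (a + (b - a) * ((q : ℚ≥0) : ℝ)) ω) ∈ S) := by
  refine ⟨{w | LinkedInf (closure (Set.range w)) z}, ?_, ?_⟩
  · exact (h_MEA Q1).preimage (measurable_const.prodMk measurable_id : Measurable fun w => (z, w))
  · intro Ω B ω hc a b hab
    rw [tr_eq_closure B ω hc hab]
    rfl

end Pool.ADJ
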