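import Pool.Agent.H99.ADJ.Fin0
import Pool.Agent.H99.ADJ.Base2

/-! # Project ADJ: assembly of the main theorem from the modules, with balls -/

set_option autoImplicit false

open MeasureTheory ProbabilityTheory Set Filter Topology
open scoped NNReal ENNReal NNRat

namespace Pool.ADJ

/-- the ball function does not depend on the Brownian motion -/
theorem hlb (h_MEB : S_MEB) (h_LAW : S_LAW) (h_AFF : S_AFF)
    {Ω : Type} [MeasurableSpace Ω] {μ : Measure Ω} {B : ℝ → Ω → Pl}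
    {Ω' : Type} [MeasurableSpace Ω'] {μ' : Measure Ω'} {B' : ℝ → Ω' → Pl}
    (hB : PB μ B) (hB' : PB μ' B') {t : ℝ} (ht : 0 < t) (r : ℝ) :
    μ {ω | BallInf (tr B ω 0 t) r} = μ' {ω | BallInf (tr B' ω 0 t) r} := by
  obtain ⟨S, hS, hS2⟩ := h_MEB r
  have hT : MeasurableSet {p : ℚ≥0 → Pl | (fun q : Q1 => √t • p (q : ℚ≥0)) ∈ S} :=
    (measurable_pi_lambda _ fun q => (measurable_pi_apply _).const_smul (√t)) hS
  have hsc : √t ≠ 0 := by positivity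
  have key : ∀ {Ω : Type} [MeasurableSpace Ω] {μ : Measure Ω} {B : ℝ → Ω → Pl}, PB μ B →
      μ {ω | BallInf (tr B ω 0 t) r} =
        μ.map (path (fun u ω => (√t)⁻¹ • (B (0 + t * u) ω - B 0 ω)))
          {p : ℚ≥0 → Pl | (fun q : Q1 => √t • p (q : ℚ≥0)) ∈ S} := by
    intro Ω _ μ B hB
    have hm : Measurable (path (fun u ω => (√t)⁻¹ • (B (0 + t * u) ω - B 0 ω))) :=
      measurable_pi_lambda _ fun q => (h_AFF Ω μ B hB 0 t le_rfl ht).meas _ (by positivity)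
    rw [Measure.map_apply hm hT]
    congr 1
    ext ω
    simp only [mem_setOf_eq, mem_preimage]
    rw [hS2 B ω (hB.cont ω) 0 t ht.le]
    have e : (fun q : Q1 => B (0 + (t - 0) * ((q : ℚ≥0) : ℝ)) ω) = fun q : Q1 =>
        √t • path (fun u ω => (√t)⁻¹ • (B (0 + t * u) ω - B 0 ω)) ω (q : ℚ≥0) := by
      funext q
      simp only [path]
      rw [smul_smul, mul_inv_cancel₀ hsc, one_smul, hB.zero, sub_zero, sub_zero]
    rw [e]
  rw [key hB, key hB', h_LAW Ω μ _ Ω' μ' _ (h_AFF Ω μ B hB 0 t le_rfl ht)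
    (h_AFF Ω' μ' B' hB' 0 t le_rfl ht)]

theorem altA_of_iterB (h_AFF : S_AFF) (h_SEB : S_SEB) (h_TWC : S_TWC)
    (h_it : ∀ (Ω : Type) [MeasurableSpace Ω] (μ : Measure Ω) (B : ℝ → Ω → Pl), PB μ B → IterB μ B)
    {Ω : Type} [MeasurableSpace Ω] {μ : Measure Ω} {B : ℝ → Ω → Pl} (hB : PB μ B) :
    AltA μ B := by
  intro u hu
  have hB' := h_AFF Ω μ B hB u 1 hu one_pos
  have h1 := h_SEB Ω μ _ hB' (h_it Ω μ _ hB')
  filter_upwards [h1] with ω hω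
  refine h_TWC (fun u => B u ω) (hB.cont ω) u fun n => ?_
  obtain ⟨a, b, r, ha, hab, hb, hr, h2⟩ := hω n
  refine ⟨a, b, r, ha, hab, hb, hr, ?_⟩
  have e2 : (fun y => y - B u ω) '' ((fun u => B u ω) '' Set.Icc (u + a) (u + b)) =
      tr (fun t ω => (√1)⁻¹ • (B (u + 1 * t) ω - B u ω)) ω a b := by
    unfold tr
    rw [image_image]
    ext y
    constructor
    · rintro ⟨v, hv, rfl⟩
      refine ⟨v - u, ⟨by linarith [hv.1], by linarith [hv.2]⟩, ?_⟩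
      simp only [Real.sqrt_one, inv_one, one_smul]
      rw [show u + 1 * (v - u) = v by ring]
    · rintro ⟨v, hv, rfl⟩
      refine ⟨u + v, ⟨by linarith [hv.1], by linarith [hv.2]⟩, ?_⟩
      simp only [Real.sqrt_one, inv_one, one_smul, one_mul]
  rw [e2]
  exact h2

/-- the main theorem for `PB` -/
theorem core1 (h_AFF : S_AFF) (h_LAW : S_LAW) (h_POL : S_POL) (h_HLW : S_HLW) (h_MKV : S_MKV)
    (h_MEB : S_MEB) (h_ZO2 : S_ZO2) (h_ITB : S_ITB) (h_SEB : S_SEB) (h_DEB : S_DEB)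
    (h_ONE : S_ONE) (h_TWC : S_TWC) (h_TWB : S_TWB) :
    (∀ (Ω : Type) [MeasurableSpace Ω] (μ : Measure Ω) (B : ℝ → Ω → Pl), PB μ B → AltI μ B) ∨
    ∃ C α : ℝ, 0 < C ∧ 0 < α ∧
      ∀ (Ω : Type) [MeasurableSpace Ω] (μ : Measure Ω) (B : ℝ → Ω → Pl), PB μ B →
        AltA μ B ∧ AltB μ B ∧ ∀ r t : ℝ, 0 < r → 0 < t →
          μ {ω | BallInf (tr B ω 0 t) r} ≤ ENNReal.ofReal (C * (r ^ 2 / t) ^ α) := by
  by_cases hex : ∀ (Ω : Type) [MeasurableSpace Ω] (μ : Measure Ω) (B : ℝ → Ω → Pl), PB μ B →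
      ∀ x : Pl, x ≠ 0 → μ {ω | LinkedInf (tr B ω 0 1) x} = 1
  · left
    intro Ω _ μ B hB
    exact altI_of_one h_MKV h_ONE hB (hex Ω μ B hB)
  · right
    have h_it : ∀ (Ω : Type) [MeasurableSpace Ω] (μ : Measure Ω) (B : ℝ → Ω → Pl), PB μ B →
        IterB μ B := by
      intro Ω _ μ B hB
      refine h_ITB Ω μ B hB ?_
      rcases h_ZO2 Ω μ B hB with h | h
      · exfalso
        apply hex
        intro Ω' _ μ' B' hB' x hx
        rw [← h_HLW Ω μ B Ω' μ' B' hB hB' x]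
        exact h x hx
      · exact h (1 / 16) (by norm_num)
    have hex2 : ∃ (Ω : Type) (_ : MeasurableSpace Ω) (μ : Measure Ω) (B : ℝ → Ω → Pl), PB μ B := by
      by_contra hcon
      apply hex
      intro Ω _ μ B hB
      exact absurd ⟨Ω, _, μ, B, hB⟩ hcon
    obtain ⟨Ω₀, _, μ₀, B₀, hB₀⟩ := hex2
    obtain ⟨C, α, hC, hα, h⟩ := h_DEB Ω₀ μ₀ B₀ hB₀ (h_it Ω₀ μ₀ B₀ hB₀)
    refine ⟨C, α, hC, hα, fun Ω _ μ B hB => ?_⟩
    have hA := altA_of_iterB h_AFF h_SEB h_TWC h_it hB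
    refine ⟨hA, altB_of_altA h_POL h_TWB hB hA, fun r t hr ht => ?_⟩
    rw [hlb h_MEB h_LAW h_AFF hB hB₀ ht r]
    exact h r t hr ht

/-- the main theorem -/
theorem main1 (h_CPL : S_CPL) (h_AFF : S_AFF) (h_LAW : S_LAW) (h_POL : S_POL) (h_HLW : S_HLW)
    (h_MKV : S_MKV) (h_MEB : S_MEB) (h_ZO2 : S_ZO2) (h_ITB : S_ITB) (h_SEB : S_SEB)
    (h_DEB : S_DEB) (h_ONE : S_ONE) (h_TWC : S_TWC) (h_TWB : S_TWB) :
    (∀ (Ω : Type) [MeasurableSpace Ω] (μ : Measure Ω) [IsProbabilityMeasure μ] (B : ℝ → Ω → Pl),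
      IsPBM μ B → AltI μ B) ∨
    ∃ C α : ℝ, 0 < C ∧ 0 < α ∧
      ∀ (Ω : Type) [MeasurableSpace Ω] (μ : Measure Ω) [IsProbabilityMeasure μ]
        (B : ℝ → Ω → Pl), IsPBM μ B →
        AltA μ B ∧ AltB μ B ∧ ∀ r t : ℝ, 0 < r → 0 < t →
          μ {ω | BallInf (tr B ω 0 t) r} ≤ ENNReal.ofReal (C * (r ^ 2 / t) ^ α) := by
  rcases core1 h_AFF h_LAW h_POL h_HLW h_MKV h_MEB h_ZO2 h_ITB h_SEB h_DEB h_ONE h_TWC h_TWB with
    h | h
  · left
    intro Ω _ μ _ B hB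
    have h1 := h (NullMeasurableSpace Ω μ) μ.completion B (h_CPL Ω μ B hB)
    unfold AltI at h1 ⊢
    rw [Measure.ae_completion] at h1
    exact h1
  · right
    obtain ⟨C, α, hC, hα, h⟩ := h
    refine ⟨C, α, hC, hα, fun Ω _ μ _ B hB => ?_⟩
    obtain ⟨h1, h2, h3⟩ := h (NullMeasurableSpace Ω μ) μ.completion B (h_CPL Ω μ B hB)
    refine ⟨fun u hu => ?_, ?_, fun r t hr ht => ?_⟩
    · have := h1 u hu
      rw [Measure.ae_completion] at this
      exact this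
    · unfold AltB at h2 ⊢
      rw [Measure.ae_completion] at h2
      exact h2
    · have e := Measure.completion_apply μ {ω | BallInf (tr B ω 0 t) r}
      exact e.symm.le.trans (h3 r t hr ht)

end Pool.ADJ
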