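import Pool.Agent.H99.ADJ.Fin1

/-! # Project ADJ: the hereditary form of the first alternative -/

set_option autoImplicit false

open MeasureTheory ProbabilityTheory Set Filter Topology
open scoped NNReal ENNReal NNRat

namespace Pool.ADJ

/-- the first alternative, hereditary form: all closed subsets of the trace have a connected
adjacency graph -/
def AltH {Ω : Type} [MeasurableSpace Ω] (μ : Measure Ω) (B : ℝ → Ω → Pl) : Prop :=
  ∀ᵐ ω ∂μ, ∀ (t : ℝ) (K : Set Pl), IsClosed K → K ⊆ tr B ω 0 t → ∀ x y : Pl, x ∉ K → y ∉ K →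
    Linked K x y

theorem step_of_mem {K : Set Pl} {x y : Pl} (hx : x ∉ K) (hy : y ∈ connectedComponentIn Kᶜ x) :
    Step K x y ∧ Step K y x := by
  have hyK : y ∉ K := (connectedComponentIn_subset _ _ hy : y ∈ Kᶜ)
  have heq : connectedComponentIn Kᶜ x = connectedComponentIn Kᶜ y := connectedComponentIn_eq hy
  refine ⟨⟨hx, hyK, ?_⟩, ⟨hyK, hx, ?_⟩⟩
  · rw [← heq, inter_self]
    exact ⟨y, subset_closure hy⟩
  · rw [← heq, inter_self]
    exact ⟨y, subset_closure hy⟩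

theorem hereditary {K K' : Set Pl} (hK : IsClosed K) (h : K ⊆ K') (hd : Dense K'ᶜ)
    (hl : ∀ x y : Pl, x ∉ K' → y ∉ K' → Linked K' x y) {x y : Pl} (hx : x ∉ K) (hy : y ∉ K) :
    Linked K x y := by
  have key : ∀ z : Pl, z ∉ K → ∃ z', z' ∉ K' ∧ Step K z z' ∧ Step K z' z := by
    intro z hz
    have ho : IsOpen (connectedComponentIn Kᶜ z) := hK.isOpen_compl.connectedComponentIn
    obtain ⟨z', h1, h2⟩ := hd.inter_open_nonempty _ ho ⟨z, mem_connectedComponentIn hz⟩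
    exact ⟨z', h2, step_of_mem hz h1⟩
  obtain ⟨x', h1, h2, _⟩ := key x hx
  obtain ⟨y', h3, _, h4⟩ := key y hy
  exact Relation.ReflTransGen.head h2 (((hl x' y' h1 h3).mono h).tail h4)

theorem dense_of_rat {K : Set Pl} (h : ∀ x : Fin 2 → ℚ, x ≠ 0 → (fun i => (x i : ℝ)) ∉ K) :
    Dense Kᶜ := by
  have hd : DenseRange (fun (x : Fin 2 → ℚ) (i : Fin 2) => (x i : ℝ)) :=
    DenseRange.piMap fun _ => Rat.isDenseEmbedding_coe_real.dense
  have hd2 : Dense (Set.range (fun (x : Fin 2 → ℚ) (i : Fin 2) => (x i : ℝ)) \ {0}) :=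
    hd.diff_singleton 0
  refine hd2.mono ?_
  rintro _ ⟨⟨x, rfl⟩, hx⟩
  refine h x fun h0 => hx ?_
  rw [h0]
  ext i
  simp

theorem altH_of_altI (h_POL : S_POL) {Ω : Type} [MeasurableSpace Ω]
    {μ : Measure Ω} {B : ℝ → Ω → Pl} (hB : PB μ B) (h : AltI μ B) : AltH μ B := by
  have h1 : ∀ᵐ ω ∂μ, ∀ (m n : ℕ) (x : Fin 2 → ℚ),
      (fun i => (x i : ℝ)) ∉ tr B ω (1 / ((m : ℝ) + 1)) (1 / ((m : ℝ) + 1) + ((n : ℝ) + 1)) := by
    rw [ae_all_iff]
    intro m
    rw [ae_all_iff]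
    intro n
    rw [ae_all_iff]
    intro x
    have hm : (0 : ℝ) < 1 / ((m : ℝ) + 1) := by positivity
    have hn : 1 / ((m : ℝ) + 1) < 1 / ((m : ℝ) + 1) + ((n : ℝ) + 1) := by
      have : (0 : ℝ) < (n : ℝ) + 1 := by positivity
      linarith
    have h2 := h_POL Ω μ B hB _ _ hm hn (fun i => (x i : ℝ))
    filter_upwards [(compl_mem_ae_iff.2 h2)] with ω hω
    exact hω
  filter_upwards [h1, h] with ω hω1 hω2
  intro t K hK hKt x y hx hy
  obtain ⟨n, hn⟩ := exists_nat_gt (max t 0)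
  have hn0 : (0 : ℝ) < n := lt_of_le_of_lt (le_max_right _ _) hn
  have hnt : t ≤ n := (le_max_left _ _).trans hn.le
  refine hereditary hK (hKt.trans (tr_mono B ω le_rfl hnt)) (dense_of_rat ?_)
    (fun x y => hω2 0 n le_rfl hn0 x y) hx hy
  rintro x hx ⟨v, hv, hv2⟩
  have hx' : (fun i => (x i : ℝ)) ≠ (0 : Pl) := by
    intro h0
    apply hx
    funext i
    have := congrFun h0 i
    simpa using this
  have hv0 : 0 < v := by
    rcases hv.1.lt_or_eq with h | h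
    · exact h
    · exfalso
      apply hx'
      rw [← hv2, ← h]
      exact hB.zero ω
  obtain ⟨m, hm⟩ := exists_nat_one_div_lt hv0
  apply hω1 m n x
  refine ⟨v, ⟨hm.le, ?_⟩, hv2⟩
  have : (0 : ℝ) < 1 / ((m : ℝ) + 1) := by positivity
  linarith [hv.2]

/-- the main theorem, final form -/
theorem main2 (h_CPL : S_CPL) (h_AFF : S_AFF) (h_LAW : S_LAW) (h_POL : S_POL) (h_HLW : S_HLW)
    (h_MKV : S_MKV) (h_MEB : S_MEB) (h_ZO2 : S_ZO2) (h_ITB : S_ITB) (h_SEB : S_SEB)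
    (h_DEB : S_DEB) (h_ONE : S_ONE) (h_TWC : S_TWC) (h_TWB : S_TWB) :
    (∀ (Ω : Type) [MeasurableSpace Ω] (μ : Measure Ω) [IsProbabilityMeasure μ] (B : ℝ → Ω → Pl),
      IsPBM μ B → AltH μ B) ∨
    ∃ C α : ℝ, 0 < C ∧ 0 < α ∧
      ∀ (Ω : Type) [MeasurableSpace Ω] (μ : Measure Ω) [IsProbabilityMeasure μ]
        (B : ℝ → Ω → Pl), IsPBM μ B →
        AltA μ B ∧ AltB μ B ∧ ∀ r t : ℝ, 0 < r → 0 < t →
          μ {ω | BallInf (tr B ω 0 t) r} ≤ ENNReal.ofReal (C * (r ^ 2 / t) ^ α) := by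
  rcases core1 h_AFF h_LAW h_POL h_HLW h_MKV h_MEB h_ZO2 h_ITB h_SEB h_DEB h_ONE h_TWC h_TWB with
    h | h
  · left
    intro Ω _ μ _ B hB
    have hB' := h_CPL Ω μ B hB
    have h1 := altH_of_altI h_POL hB' (h (NullMeasurableSpace Ω μ) μ.completion B hB')
    unfold AltH at h1 ⊢
    rw [Measure.ae_completion] at h1
    exact h1
  · right
    obtain ⟨C, α, hC, hα, h⟩ := h
    refine ⟨C, α, hC, hα, fun Ω _ μ _ B hB => ?_⟩
    obtain ⟨h1, h2, h3⟩ := h (NullMeasurableSpace Ω μ) μ.completion B (h_CPL Ω μ B hB)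
    refine ⟨fun u hu => ?_, ?_, fun r t hr ht => ?_⟩
    · have := h1 u hu
      rw [Measure.ae_completion] at this
      exact this
    · unfold AltB at h2 ⊢
      rw [Measure.ae_completion] at h2
      exact h2
    · have e := Measure.completion_apply μ {ω | BallInf (tr B ω 0 t) r}
      exact e.symm.le.trans (h3 r t hr ht)

end Pool.ADJ
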