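import Pool.Agent.H99.ADJ.Base2

/-! # Project ADJ, module ITB: the iteration for balls -/

set_option autoImplicit false

open MeasureTheory ProbabilityTheory Set Filter Topology
open scoped NNReal ENNReal NNRat

namespace Pool.ADJ

private theorem itb_sq_le (x : Pl) : ‖x‖ ^ 2 ≤ x 0 ^ 2 + x 1 ^ 2 := by
  have h0 : 0 ≤ x 0 ^ 2 + x 1 ^ 2 := by positivity
  have h1 : ‖x‖ ≤ √(x 0 ^ 2 + x 1 ^ 2) := by
    rw [pi_norm_le_iff_of_nonneg (Real.sqrt_nonneg _)]
    intro i
    rw [Real.norm_eq_abs]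
    apply Real.abs_le_sqrt
    fin_cases i
    · simp only [Fin.zero_eta, Fin.isValue, le_add_iff_nonneg_right]
      positivity
    · simp only [Fin.mk_one, Fin.isValue, le_add_iff_nonneg_left]
      positivity
  calc ‖x‖ ^ 2 ≤ √(x 0 ^ 2 + x 1 ^ 2) ^ 2 := by gcongr
    _ = x 0 ^ 2 + x 1 ^ 2 := Real.sq_sqrt h0

variable {Ω : Type} [MeasurableSpace Ω] {μ : Measure Ω} {B : ℝ → Ω → Pl}

/-- the second moment -/
private theorem itb_one (hB : PB μ B) : ∫⁻ ω, ENNReal.ofReal (‖B 1 ω‖ ^ 2) ∂μ ≤ 2 := by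
  have hp := hB.gp.isProbabilityMeasure
  have hm : ∀ i : Fin 2, MemLp (fun ω => B 1 ω i) 2 μ := by
    intro i
    have h := (hB.gp.hasGaussianLaw_eval ((1 : ℝ≥0), i)).memLp_two
    simpa using h
  have hI : ∀ i : Fin 2, Integrable (fun ω => B 1 ω i ^ 2) μ := fun i => (hm i).integrable_sq
  have hE : ∀ i : Fin 2, ∫ ω, B 1 ω i ^ 2 ∂μ = 1 := by
    intro i
    have h1 := hB.cov ((1 : ℝ≥0), i) ((1 : ℝ≥0), i)
    have h2 := hB.mean ((1 : ℝ≥0), i)
    simp only [NNReal.coe_one, min_self, if_true] at h1 h2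
    rw [covariance_self (hm i).aemeasurable, variance_eq_sub (hm i), h2] at h1
    simpa using h1
  calc ∫⁻ ω, ENNReal.ofReal (‖B 1 ω‖ ^ 2) ∂μ
      ≤ ∫⁻ ω, ENNReal.ofReal (B 1 ω 0 ^ 2 + B 1 ω 1 ^ 2) ∂μ :=
        lintegral_mono fun ω => ENNReal.ofReal_le_ofReal (itb_sq_le _)
    _ = ENNReal.ofReal (∫ ω, (B 1 ω 0 ^ 2 + B 1 ω 1 ^ 2) ∂μ) :=
        (ofReal_integral_eq_lintegral_ofReal ((hI 0).add (hI 1))
          (ae_of_all _ fun ω => add_nonneg (sq_nonneg _) (sq_nonneg _))).symm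
    _ = 2 := by
        rw [integral_add (hI 0) (hI 1), hE 0, hE 1]
        norm_num

private theorem itb_inc (h_AFF : S_AFF) (hB : PB μ B) {a c : ℝ} (ha : 0 ≤ a) (hc : 0 < c) :
    ∫⁻ ω, ENNReal.ofReal (‖B (a + c) ω - B a ω‖ ^ 2) ∂μ ≤ ENNReal.ofReal (2 * c) := by
  have h1 := itb_one (h_AFF Ω μ B hB a c ha hc)
  have h2 : ∀ ω, ENNReal.ofReal (‖B (a + c) ω - B a ω‖ ^ 2) =
      ENNReal.ofReal c * ENNReal.ofReal (‖(√c)⁻¹ • (B (a + c * 1) ω - B a ω)‖ ^ 2) := by
    intro ω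
    rw [← ENNReal.ofReal_mul hc.le, norm_smul, mul_pow, norm_inv,
      Real.norm_of_nonneg (Real.sqrt_nonneg c), inv_pow, Real.sq_sqrt hc.le, mul_one]
    congr 1
    field_simp
  simp_rw [h2]
  rw [lintegral_const_mul' _ _ ENNReal.ofReal_ne_top]
  calc ENNReal.ofReal c * ∫⁻ ω, ENNReal.ofReal (‖(√c)⁻¹ • (B (a + c * 1) ω - B a ω)‖ ^ 2) ∂μ
      ≤ ENNReal.ofReal c * 2 := by gcongr
    _ = ENNReal.ofReal (2 * c) := by
        rw [mul_comm, ENNReal.ofReal_mul (by norm_num)]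
        norm_num

private theorem itb_ind (h_IND : S_IND) (hB : PB μ B) {ι : Type} [Countable ι] (t : ι → ℝ)
    {a c : ℝ} (ha : 0 ≤ a) (hc : 0 < c) (ht : ∀ i, 0 ≤ t i ∧ t i ≤ a) (S : Set (ι → Pl))
    (hS : MeasurableSet S) :
    ∫⁻ ω in {ω | (fun i => B (t i) ω) ∈ S}, ENNReal.ofReal (‖B (a + c) ω - B a ω‖ ^ 2) ∂μ =
      μ {ω | (fun i => B (t i) ω) ∈ S} *
        ∫⁻ ω, ENNReal.ofReal (‖B (a + c) ω - B a ω‖ ^ 2) ∂μ := by
  have h1 := h_IND Ω μ B hB ι Unit t (fun _ => c) a ha ht (fun _ => hc.le)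
  have hpre : Measurable (fun ω i => B (t i) ω) :=
    measurable_pi_lambda _ fun i => hB.meas _ (ht i).1
  have hA : MeasurableSet {ω | (fun i => B (t i) ω) ∈ S} := hpre hS
  have hpost : Measurable (fun ω (_ : Unit) => B (a + c) ω - B a ω) :=
    measurable_pi_lambda _ fun _ => (hB.meas _ (by linarith)).sub (hB.meas _ ha)
  have hf : Measurable (S.indicator (fun _ => (1 : ℝ≥0∞))) := measurable_one.indicator hS
  have hg : Measurable (fun v : Unit → Pl => ENNReal.ofReal (‖v ()‖ ^ 2)) := by fun_prop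
  have h2 := lintegral_mul_eq_lintegral_mul_lintegral_of_indepFun (hf.comp hpre) (hg.comp hpost)
    (h1.comp hf hg)
  rw [← lintegral_indicator hA]
  have e1 : ∀ ω, ({ω | (fun i => B (t i) ω) ∈ S}).indicator
      (fun ω => ENNReal.ofReal (‖B (a + c) ω - B a ω‖ ^ 2)) ω =
      ((S.indicator (fun _ => (1 : ℝ≥0∞)) ∘ fun ω i => B (t i) ω) *
        ((fun v : Unit → Pl => ENNReal.ofReal (‖v ()‖ ^ 2)) ∘
          fun ω (_ : Unit) => B (a + c) ω - B a ω)) ω := by
    intro ω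
    simp only [Pi.mul_apply, Function.comp_apply]
    by_cases h : (fun i => B (t i) ω) ∈ S
    · rw [indicator_of_mem (by exact h), indicator_of_mem h, one_mul]
    · rw [indicator_of_notMem (by exact h), indicator_of_notMem h, zero_mul]
  simp_rw [e1]
  rw [h2]
  congr 1
  have e2 : ∀ ω, (S.indicator (fun _ => (1 : ℝ≥0∞)) ∘ fun ω i => B (t i) ω) ω =
      ({ω | (fun i => B (t i) ω) ∈ S}).indicator (fun _ => 1) ω := by
    intro ω
    simp only [Function.comp_apply]
    by_cases h : (fun i => B (t i) ω) ∈ S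
    · rw [indicator_of_mem h, indicator_of_mem (by exact h)]
    · rw [indicator_of_notMem h, indicator_of_notMem (by exact h)]
  simp_rw [e2]
  rw [lintegral_indicator hA]
  simp

/-- if the ball is not hit, the centre is linked to infinity -/
private theorem itb_center {K : Set Pl} {r : ℝ} (h : BallInf K r) (hK : ∀ y ∈ K, ¬ ‖y‖ < r) :
    LinkedInf K 0 := by
  obtain ⟨z, hz, y, hy1, hy2, hy3⟩ := h
  have hr : 0 < r := lt_of_le_of_lt (norm_nonneg z) hz
  have hsub : Metric.ball (0 : Pl) r ⊆ Kᶜ := by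
    intro x hx hxK
    rw [mem_ball_zero_iff] at hx
    exact hK x hxK hx
  have h0 : (0 : Pl) ∈ Metric.ball (0 : Pl) r := Metric.mem_ball_self hr
  have hzb : z ∈ Metric.ball (0 : Pl) r := by rwa [mem_ball_zero_iff]
  have hpc : IsPreconnected (Metric.ball (0 : Pl) r) := (convex_ball 0 r).isPreconnected
  have hzc : z ∈ connectedComponentIn Kᶜ 0 := (hpc.subset_connectedComponentIn h0 hsub) hzb
  have heq : connectedComponentIn Kᶜ 0 = connectedComponentIn Kᶜ z := connectedComponentIn_eq hzc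
  refine ⟨y, hy1, hy2, Relation.ReflTransGen.head ⟨fun h => hsub h0 h, fun h => hsub hzb h, ?_⟩ hy3⟩
  rw [← heq, inter_self]
  exact ⟨0, subset_closure (mem_connectedComponentIn (hsub h0))⟩

theorem itb_thm (h_MEB : S_MEB) (h_MKV : S_MKV) (h_GMK : S_GMK) (h_HIT : S_HIT) (h_IND : S_IND)
    (h_AFF : S_AFF) : S_ITB := by
  intro Ω _ μ B hB hδ
  have hp := hB.gp.isProbabilityMeasure
  obtain ⟨δ, hδ0, hδ⟩ := hδ
  set h : Pl → ℝ≥0∞ := fun x => μ {ω | LinkedInf (tr B ω 0 1) x} with hh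
  have hle : ∀ x, h x ≤ 1 := fun x => prob_le_one
  obtain ⟨M, hM⟩ : ∃ M, M = 1 / δ ^ 2 := ⟨_, rfl⟩
  have hM0 : 0 < M := by rw [hM]; positivity
  have hb : ∀ x, h x ≤ ENNReal.ofReal (1 / 16 + M * ‖x‖ ^ 2) := by
    intro x
    have e16 : (1 / 16 : ℝ≥0∞) = ENNReal.ofReal (1 / 16) := by
      rw [ENNReal.ofReal_div_of_pos (by norm_num), ENNReal.ofReal_one]
      norm_num
    rw [ENNReal.ofReal_add (by norm_num) (by positivity), ← e16]
    by_cases hx : ‖x‖ < δ
    · exact (hδ x hx).trans le_self_add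
    · refine (hle x).trans ?_
      refine le_trans ?_ le_add_self
      rw [ENNReal.one_le_ofReal, hM]
      rw [not_lt] at hx
      rw [one_div, inv_mul_eq_div, one_le_div (by positivity)]
      gcongr
  obtain ⟨N, hN⟩ : ∃ N : ℕ, 16 + 256 * M ≤ N := exists_nat_ge _
  obtain ⟨L, hL⟩ : ∃ L : ℝ, L = N + 2 := ⟨_, rfl⟩
  have hL18 : 18 ≤ L := by rw [hL]; linarith
  have hL0 : 0 < L := by linarith
  obtain ⟨ρ, hρ0, hρ⟩ := h_HIT Ω μ B hB (L - 1) (by linarith)
  refine ⟨L, by linarith, ρ, hρ0, 2, by norm_num, fun s r hs hr => ?_⟩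
  obtain ⟨S, hS, hS2⟩ := h_MEB r
  -- the times
  have htp : ∀ j : ℕ, 0 < L ^ j * s := fun j => by positivity
  have htm : ∀ j n : ℕ, j ≤ n → L ^ j * s ≤ L ^ n * s := by
    intro j n hjn
    have : L ^ j ≤ L ^ n := pow_le_pow_right₀ (by linarith) hjn
    gcongr
  have ht2 : ∀ j : ℕ, 2 * (L ^ j * s) ≤ L ^ (j + 1) * s := by
    intro j
    have h1 := htp j
    have h2 : L ^ (j + 1) * s = L * (L ^ j * s) := by ring
    rw [h2]
    have : 2 ≤ L := by linarith
    gcongr
  -- the events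
  set A : ℕ → Set Ω := fun n =>
    {ω | ∀ j < n, BallInf (tr B ω (2 * (L ^ j * s)) (L ^ (j + 1) * s)) r} with hAdef
  set tt : (n : ℕ) → Fin n × Q1 → ℝ := fun n i => 2 * (L ^ (i.1 : ℕ) * s) +
    (L ^ ((i.1 : ℕ) + 1) * s - 2 * (L ^ (i.1 : ℕ) * s)) * ((i.2 : ℚ≥0) : ℝ) with htt
  set SS : (n : ℕ) → Set (Fin n × Q1 → Pl) := fun n => {f | ∀ j : Fin n, (fun q => f (j, q)) ∈ S}
    with hSS
  have htt1 : ∀ n i, 0 ≤ tt n i ∧ tt n i ≤ L ^ n * s := by
    intro n i
    have h1 : (0 : ℝ) ≤ ((i.2 : ℚ≥0) : ℝ) := by positivity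
    have h2 : ((i.2 : ℚ≥0) : ℝ) ≤ 1 := by exact_mod_cast i.2.2
    have h3 := htp i.1
    have h4 := ht2 i.1
    have h5 : L ^ ((i.1 : ℕ) + 1) * s ≤ L ^ n * s := htm _ _ i.1.2
    refine ⟨?_, ?_⟩
    · have : 0 ≤ (L ^ ((i.1 : ℕ) + 1) * s - 2 * (L ^ (i.1 : ℕ) * s)) * ((i.2 : ℚ≥0) : ℝ) :=
        mul_nonneg (by linarith) h1
      simp only [htt]
      linarith
    · have : (L ^ ((i.1 : ℕ) + 1) * s - 2 * (L ^ (i.1 : ℕ) * s)) * ((i.2 : ℚ≥0) : ℝ) ≤
          (L ^ ((i.1 : ℕ) + 1) * s - 2 * (L ^ (i.1 : ℕ) * s)) * 1 :=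
        mul_le_mul_of_nonneg_left h2 (by linarith)
      simp only [htt]
      linarith
  have hSSm : ∀ n, MeasurableSet (SS n) := by
    intro n
    have : SS n = ⋂ j : Fin n, (fun (f : Fin n × Q1 → Pl) (q : Q1) => f (j, q)) ⁻¹' S := by
      ext f
      simp [hSS]
    rw [this]
    exact MeasurableSet.iInter fun j => (measurable_pi_lambda _ fun q =>
      measurable_pi_apply (j, q)) hS
  have hAe : ∀ n, A n = {ω | (fun i => B (tt n i) ω) ∈ SS n} := by
    intro n
    ext ω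
    constructor
    · intro hω j
      exact (hS2 B ω (hB.cont ω) _ _ (ht2 _)).1 (hω j j.2)
    · intro hω j hj
      exact (hS2 B ω (hB.cont ω) _ _ (ht2 _)).2 (hω ⟨j, hj⟩)
  -- the weights
  set X : ℕ → Ω → ℝ≥0∞ := fun n ω => ENNReal.ofReal (‖B (L ^ n * s) ω‖ ^ 2 / (L ^ n * s)) with hX
  have hXm : ∀ n, Measurable (X n) := by
    intro n
    have := hB.meas _ (htp n).le
    fun_prop
  set p : ℕ → ℝ≥0∞ := fun n => μ (A n) with hpdef
  set x : ℕ → ℝ≥0∞ := fun n => ∫⁻ ω in A n, X n ω ∂μ with hxdef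
  -- the ball is hit
  have estH : ∀ n, μ (A n ∩ {ω | ∃ y ∈ tr B ω (2 * (L ^ n * s)) (L ^ (n + 1) * s), ‖y‖ < r}) ≤
      ENNReal.ofReal (1 / 8) * p n + ENNReal.ofReal (1 / 64) * x n := by
    intro n
    obtain ⟨c, hc⟩ : ∃ c, c = L ^ n * s := ⟨_, rfl⟩
    have hc0 : 0 < c := by rw [hc]; exact htp n
    set G : Set (Pl × (ℚ≥0 → Pl)) :=
      {v | ∃ q : Q1, ‖v.1 + √c • v.2 (1 + (N : ℚ≥0) * (q : ℚ≥0))‖ < r} with hG
    have hGm : MeasurableSet G := by
      have : G = ⋃ q : Q1, {v : Pl × (ℚ≥0 → Pl) |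
          ‖v.1 + √c • v.2 (1 + (N : ℚ≥0) * (q : ℚ≥0))‖ < r} := by
        ext v
        simp [hG]
      rw [this]
      refine MeasurableSet.iUnion fun q => measurableSet_lt ?_ measurable_const
      have h1 : Measurable fun v : Pl × (ℚ≥0 → Pl) => v.2 (1 + (N : ℚ≥0) * (q : ℚ≥0)) :=
        (measurable_pi_apply _).comp measurable_snd
      exact (measurable_fst.add (h1.const_smul (√c))).norm
    have h1 := h_GMK Ω μ B hB (Fin n × Q1) (tt n) (L ^ n * s) c (htp n).le hc0 (htt1 n)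
      (SS n) (hSSm n) G hGm
    rw [← hAe n] at h1
    have h2 : A n ∩ {ω | ∃ y ∈ tr B ω (2 * (L ^ n * s)) (L ^ (n + 1) * s), ‖y‖ < r} ⊆
        A n ∩ {ω | (B (L ^ n * s) ω, path (fun u ω => (√c)⁻¹ • (B (L ^ n * s + c * u) ω -
          B (L ^ n * s) ω)) ω) ∈ G} := by
      rintro ω ⟨hω1, y, hy1, hy2⟩
      refine ⟨hω1, ?_⟩
      rw [tr_eq_closure B ω (hB.cont ω) (ht2 n)] at hy1
      obtain ⟨y', hy3, q, hq⟩ := mem_closure_iff.1 hy1 (Metric.ball 0 r) Metric.isOpen_ball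
        (by rwa [mem_ball_zero_iff])
      refine ⟨q, ?_⟩
      rw [mem_ball_zero_iff, ← hq] at hy3
      have hsc : √c ≠ 0 := by positivity
      simp only [path]
      rw [smul_smul, mul_inv_cancel₀ hsc, one_smul, add_sub_cancel]
      have e3 : L ^ n * s + c * ((1 + (N : ℚ≥0) * (q : ℚ≥0) : ℚ≥0) : ℝ) =
          2 * (L ^ n * s) + (L ^ (n + 1) * s - 2 * (L ^ n * s)) * ((q : ℚ≥0) : ℝ) := by
        push_cast
        rw [hc, pow_succ, hL]
        ring
      rw [e3]
      exact hy3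
    refine (measure_mono h2).trans ?_
    rw [h1]
    have h3 : ∀ ω, μ {ω' | (B (L ^ n * s) ω, path B ω') ∈ G} ≤
        ENNReal.ofReal (1 / 8) + ENNReal.ofReal (1 / 64) * X n ω := by
      intro ω
      have h4 := hρ (-((√c)⁻¹ • B (L ^ n * s) ω))
      refine (measure_mono ?_).trans (h4.trans (le_of_eq ?_))
      · rintro ω' ⟨q, hq⟩
        have hq1 : ((q : ℚ≥0) : ℝ) ≤ 1 := by exact_mod_cast q.2
        have hq0 : (0 : ℝ) ≤ ((q : ℚ≥0) : ℝ) := by positivity
        have hNr : (0 : ℝ) ≤ N := by positivity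
        refine ⟨1 + (N : ℝ) * ((q : ℚ≥0) : ℝ), ⟨?_, ?_⟩, ?_⟩
        · have := mul_nonneg hNr hq0
          linarith
        · have : (N : ℝ) * ((q : ℚ≥0) : ℝ) ≤ N * 1 := by gcongr
          rw [hL]
          linarith
        · simp only [path] at hq
          push_cast at hq
          have hsc : 0 < √c := by positivity
          have e1 : B (L ^ n * s) ω + √c • B (1 + (N : ℝ) * ((q : ℚ≥0) : ℝ)) ω' =
              √c • (B (1 + (N : ℝ) * ((q : ℚ≥0) : ℝ)) ω' - -((√c)⁻¹ • B (L ^ n * s) ω)) := by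
            rw [sub_neg_eq_add, smul_add, smul_smul, mul_inv_cancel₀ hsc.ne', one_smul, add_comm]
          rw [e1, norm_smul, Real.norm_of_nonneg hsc.le] at hq
          have h5 : √s ≤ √c := by
            apply Real.sqrt_le_sqrt
            rw [hc]
            simpa using htm 0 n (Nat.zero_le _)
          have h6 : r ≤ √c * ρ := by
            calc r ≤ ρ * √s := hr
              _ ≤ ρ * √c := by gcongr
              _ = √c * ρ := mul_comm _ _
          exact lt_of_mul_lt_mul_left (hq.trans_le h6) hsc.le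
      · simp only [hX]
        rw [norm_neg, norm_smul, mul_pow, norm_inv, Real.norm_of_nonneg (Real.sqrt_nonneg c),
          inv_pow, Real.sq_sqrt hc0.le, ← ENNReal.ofReal_mul (by norm_num),
          ← ENNReal.ofReal_add (by norm_num) (by have := htp n; positivity), ← hc]
        congr 1
        field_simp
    calc ∫⁻ ω in A n, μ {ω' | (B (L ^ n * s) ω, path B ω') ∈ G} ∂μ
        ≤ ∫⁻ ω in A n, (ENNReal.ofReal (1 / 8) + ENNReal.ofReal (1 / 64) * X n ω) ∂μ :=
          lintegral_mono h3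
      _ = ENNReal.ofReal (1 / 8) * p n + ENNReal.ofReal (1 / 64) * x n := by
          rw [lintegral_add_left measurable_const, setLIntegral_const,
            lintegral_const_mul' _ _ ENNReal.ofReal_ne_top]
  -- the centre is linked to infinity
  have estL : ∀ n, μ (A n ∩ {ω | LinkedInf (tr B ω (2 * (L ^ n * s)) (L ^ (n + 1) * s)) 0}) ≤
      ENNReal.ofReal (5 / 64) * p n + ENNReal.ofReal (1 / 128) * x n := by
    intro n
    obtain ⟨c, hc⟩ : ∃ c, c = N * (L ^ n * s) := ⟨_, rfl⟩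
    have hN0 : (0 : ℝ) < N := by linarith
    have hc0 : 0 < c := by rw [hc]; exact mul_pos hN0 (htp n)
    have hT : L ^ (n + 1) * s = 2 * (L ^ n * s) + c := by rw [hc, pow_succ, hL]; ring
    have ht' : ∀ i, 0 ≤ tt n i ∧ tt n i ≤ 2 * (L ^ n * s) := fun i =>
      ⟨(htt1 n i).1, (htt1 n i).2.trans (by linarith [htp n])⟩
    have h1 := (h_MKV Ω μ B hB).2.2 (Fin n × Q1) (tt n) (2 * (L ^ n * s)) c
      (by linarith [htp n]) hc0 ht' (SS n) (hSSm n) 0
    rw [← hAe n, ← hT] at h1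
    rw [h1]
    have h3 : ∀ ω, h ((√c)⁻¹ • (0 - B (2 * (L ^ n * s)) ω)) ≤
        ENNReal.ofReal (1 / 16) + ENNReal.ofReal (1 / 128) * X n ω +
          ENNReal.ofReal (1 / (128 * (L ^ n * s))) *
            ENNReal.ofReal (‖B (L ^ n * s + L ^ n * s) ω - B (L ^ n * s) ω‖ ^ 2) := by
      intro ω
      refine (hb _).trans ?_
      simp only [hX]
      have h7 := htp n
      rw [← ENNReal.ofReal_mul (by norm_num), ← ENNReal.ofReal_mul (by positivity),
        ← ENNReal.ofReal_add (by norm_num) (by positivity),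
        ← ENNReal.ofReal_add (by positivity) (by positivity)]
      apply ENNReal.ofReal_le_ofReal
      rw [zero_sub, norm_smul, mul_pow, norm_inv, Real.norm_of_nonneg (Real.sqrt_nonneg c),
        inv_pow, Real.sq_sqrt hc0.le, norm_neg, ← two_mul]
      set u := B (L ^ n * s) ω with hu
      set v := B (2 * (L ^ n * s)) ω - u with hv
      have e1 : B (2 * (L ^ n * s)) ω = u + v := by rw [hv]; abel
      have e2 : ‖u + v‖ ^ 2 ≤ 2 * ‖u‖ ^ 2 + 2 * ‖v‖ ^ 2 := by
        have h3 := norm_add_le u v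
        have h4 : ‖u + v‖ ^ 2 ≤ (‖u‖ + ‖v‖) ^ 2 := by gcongr
        nlinarith [sq_nonneg (‖u‖ - ‖v‖)]
      rw [e1]
      have h8 : M * c⁻¹ ≤ 1 / (256 * (L ^ n * s)) := by
        rw [hc, ← div_eq_mul_inv, div_le_div_iff₀ (by positivity) (by positivity)]
        have : 256 * M ≤ N := by linarith
        nlinarith
      calc 1 / 16 + M * (c⁻¹ * ‖u + v‖ ^ 2)
          = 1 / 16 + (M * c⁻¹) * ‖u + v‖ ^ 2 := by ring
        _ ≤ 1 / 16 + 1 / (256 * (L ^ n * s)) * (2 * ‖u‖ ^ 2 + 2 * ‖v‖ ^ 2) := by gcongr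
        _ = 1 / 16 + 1 / 128 * (‖u‖ ^ 2 / (L ^ n * s)) + 1 / (128 * (L ^ n * s)) * ‖v‖ ^ 2 := by
            field_simp
            ring
    have h5 := itb_ind h_IND hB (tt n) (htp n).le (htp n) (htt1 n) (SS n) (hSSm n)
    rw [← hAe n] at h5
    calc ∫⁻ ω in A n, h ((√c)⁻¹ • (0 - B (2 * (L ^ n * s)) ω)) ∂μ
        ≤ ∫⁻ ω in A n, (ENNReal.ofReal (1 / 16) + ENNReal.ofReal (1 / 128) * X n ω +
          ENNReal.ofReal (1 / (128 * (L ^ n * s))) *
            ENNReal.ofReal (‖B (L ^ n * s + L ^ n * s) ω - B (L ^ n * s) ω‖ ^ 2)) ∂μ :=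
          lintegral_mono h3
      _ = ENNReal.ofReal (1 / 16) * p n + ENNReal.ofReal (1 / 128) * x n +
          ENNReal.ofReal (1 / (128 * (L ^ n * s))) * (p n *
            ∫⁻ ω, ENNReal.ofReal (‖B (L ^ n * s + L ^ n * s) ω - B (L ^ n * s) ω‖ ^ 2) ∂μ) := by
          have hm : Measurable fun ω => ENNReal.ofReal (1 / 16) + ENNReal.ofReal (1 / 128) * X n ω :=
            measurable_const.add ((hXm n).const_mul _)
          rw [lintegral_add_left hm, lintegral_add_left measurable_const, setLIntegral_const,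
            lintegral_const_mul' _ _ ENNReal.ofReal_ne_top,
            lintegral_const_mul' _ _ ENNReal.ofReal_ne_top, h5]
      _ ≤ ENNReal.ofReal (1 / 16) * p n + ENNReal.ofReal (1 / 128) * x n +
          ENNReal.ofReal (1 / (128 * (L ^ n * s))) * (p n *
            ENNReal.ofReal (2 * (L ^ n * s))) := by
          gcongr
          exact itb_inc h_AFF hB (htp n).le (htp n)
      _ = ENNReal.ofReal (5 / 64) * p n + ENNReal.ofReal (1 / 128) * x n := by
          have h7 := htp n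
          have h6 : ENNReal.ofReal (1 / (128 * (L ^ n * s))) * (p n *
              ENNReal.ofReal (2 * (L ^ n * s))) = ENNReal.ofReal (1 / 64) * p n := by
            have : (1 / 64 : ℝ) = 1 / (128 * (L ^ n * s)) * (2 * (L ^ n * s)) := by
              field_simp
              norm_num
            rw [this, ENNReal.ofReal_mul (p := 1 / (128 * (L ^ n * s))) (by positivity)]
            ring
          rw [h6]
          have h8 : ENNReal.ofReal (5 / 64) = ENNReal.ofReal (1 / 16) + ENNReal.ofReal (1 / 64) := by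
            rw [← ENNReal.ofReal_add (by norm_num) (by norm_num)]
            norm_num
          rw [h8]
          ring
  -- first estimate
  have est1 : ∀ n, p (n + 1) ≤ ENNReal.ofReal (13 / 64) * p n + ENNReal.ofReal (3 / 128) * x n := by
    intro n
    have h1 : A (n + 1) ⊆
        (A n ∩ {ω | ∃ y ∈ tr B ω (2 * (L ^ n * s)) (L ^ (n + 1) * s), ‖y‖ < r}) ∪
        (A n ∩ {ω | LinkedInf (tr B ω (2 * (L ^ n * s)) (L ^ (n + 1) * s)) 0}) := by
      intro ω hω
      have h2 : ω ∈ A n := fun j hj => hω j (by omega)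
      have h3 := hω n (by omega)
      by_cases hh : ∃ y ∈ tr B ω (2 * (L ^ n * s)) (L ^ (n + 1) * s), ‖y‖ < r
      · exact Or.inl ⟨h2, hh⟩
      · refine Or.inr ⟨h2, itb_center h3 fun y hy hy2 => hh ⟨y, hy, hy2⟩⟩
    calc p (n + 1) ≤ _ := measure_mono h1
      _ ≤ _ := measure_union_le _ _
      _ ≤ (ENNReal.ofReal (1 / 8) * p n + ENNReal.ofReal (1 / 64) * x n) +
          (ENNReal.ofReal (5 / 64) * p n + ENNReal.ofReal (1 / 128) * x n) :=
          add_le_add (estH n) (estL n)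
      _ = (ENNReal.ofReal (1 / 8) + ENNReal.ofReal (5 / 64)) * p n +
          (ENNReal.ofReal (1 / 64) + ENNReal.ofReal (1 / 128)) * x n := by ring
      _ = ENNReal.ofReal (13 / 64) * p n + ENNReal.ofReal (3 / 128) * x n := by
          rw [← ENNReal.ofReal_add (by norm_num) (by norm_num),
            ← ENNReal.ofReal_add (by norm_num) (by norm_num)]
          norm_num
  -- second estimate
  have est2 : ∀ n, x (n + 1) ≤ ENNReal.ofReal (1 / 8) * x n + ENNReal.ofReal 4 * p n := by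
    intro n
    obtain ⟨c, hc⟩ : ∃ c, c = (L - 1) * (L ^ n * s) := ⟨_, rfl⟩
    have hc0 : 0 < c := by rw [hc]; exact mul_pos (by linarith) (htp n)
    have hsub : A (n + 1) ⊆ A n := fun ω hω j hj => hω j (by omega)
    have hT : L ^ (n + 1) * s = L ^ n * s + c := by rw [hc]; ring
    have hT0 := htp (n + 1)
    have h1 : ∀ ω, X (n + 1) ω ≤ ENNReal.ofReal (1 / 8) * X n ω +
        ENNReal.ofReal (2 / (L ^ (n + 1) * s)) *
          ENNReal.ofReal (‖B (L ^ n * s + c) ω - B (L ^ n * s) ω‖ ^ 2) := by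
      intro ω
      simp only [hX]
      rw [← ENNReal.ofReal_mul (by norm_num), ← ENNReal.ofReal_mul (by positivity),
        ← ENNReal.ofReal_add (by have := htp n; positivity) (by positivity)]
      apply ENNReal.ofReal_le_ofReal
      rw [hT]
      set u := B (L ^ n * s) ω with hu
      set v := B (L ^ n * s + c) ω - B (L ^ n * s) ω with hv
      have e1 : B (L ^ n * s + c) ω = u + v := by rw [hu, hv]; abel
      have e2 : ‖u + v‖ ^ 2 ≤ 2 * ‖u‖ ^ 2 + 2 * ‖v‖ ^ 2 := by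
        have h3 := norm_add_le u v
        have h4 : ‖u + v‖ ^ 2 ≤ (‖u‖ + ‖v‖) ^ 2 := by gcongr
        nlinarith [sq_nonneg (‖u‖ - ‖v‖)]
      rw [e1, ← hT]
      calc ‖u + v‖ ^ 2 / (L ^ (n + 1) * s) ≤ (2 * ‖u‖ ^ 2 + 2 * ‖v‖ ^ 2) / (L ^ (n + 1) * s) := by
            gcongr
        _ = (2 / L) * (‖u‖ ^ 2 / (L ^ n * s)) + 2 / (L ^ (n + 1) * s) * ‖v‖ ^ 2 := by
            field_simp
            ring
        _ ≤ 1 / 8 * (‖u‖ ^ 2 / (L ^ n * s)) + 2 / (L ^ (n + 1) * s) * ‖v‖ ^ 2 := by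
            have h9 : 2 / L ≤ 1 / 8 := by
              rw [div_le_div_iff₀ hL0 (by norm_num)]
              linarith
            have := htp n
            gcongr
    have h2 := itb_ind h_IND hB (tt n) (htp n).le hc0 (htt1 n) (SS n) (hSSm n)
    rw [← hAe n] at h2
    calc x (n + 1) ≤ ∫⁻ ω in A n, X (n + 1) ω ∂μ := lintegral_mono_set hsub
      _ ≤ ∫⁻ ω in A n, (ENNReal.ofReal (1 / 8) * X n ω + ENNReal.ofReal (2 / (L ^ (n + 1) * s)) *
          ENNReal.ofReal (‖B (L ^ n * s + c) ω - B (L ^ n * s) ω‖ ^ 2)) ∂μ := lintegral_mono h1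
      _ = ENNReal.ofReal (1 / 8) * x n + ENNReal.ofReal (2 / (L ^ (n + 1) * s)) *
          (p n * ∫⁻ ω, ENNReal.ofReal (‖B (L ^ n * s + c) ω - B (L ^ n * s) ω‖ ^ 2) ∂μ) := by
          rw [lintegral_add_left ((hXm n).const_mul _), lintegral_const_mul' _ _ ENNReal.ofReal_ne_top,
            lintegral_const_mul' _ _ ENNReal.ofReal_ne_top, h2]
      _ ≤ ENNReal.ofReal (1 / 8) * x n + ENNReal.ofReal (2 / (L ^ (n + 1) * s)) *
          (p n * ENNReal.ofReal (2 * c)) := by
          gcongr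
          exact itb_inc h_AFF hB (htp n).le hc0
      _ ≤ ENNReal.ofReal (1 / 8) * x n + ENNReal.ofReal 4 * p n := by
          have h5 : 2 / (L ^ (n + 1) * s) * (2 * c) ≤ 4 := by
            rw [div_mul_eq_mul_div, div_le_iff₀ hT0, hT]
            have := htp n
            nlinarith
          have h6 : ENNReal.ofReal (2 / (L ^ (n + 1) * s) * (2 * c)) ≤ ENNReal.ofReal 4 :=
            ENNReal.ofReal_le_ofReal h5
          have h7 : ENNReal.ofReal (2 / (L ^ (n + 1) * s)) * (p n * ENNReal.ofReal (2 * c)) =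
              ENNReal.ofReal (2 / (L ^ (n + 1) * s) * (2 * c)) * p n := by
            rw [ENNReal.ofReal_mul (p := 2 / (L ^ (n + 1) * s)) (by positivity)]
            ring
          rw [h7]
          gcongr
  -- the start
  have est0 : p 0 + ENNReal.ofReal (1 / 16) * x 0 ≤ ENNReal.ofReal 2 := by
    have hp0 : p 0 ≤ 1 := prob_le_one
    have h1 : ∀ ω, X 0 ω = ENNReal.ofReal (1 / s) *
        ENNReal.ofReal (‖B (0 + s) ω - B 0 ω‖ ^ 2) := by
      intro ω
      simp only [hX, pow_zero, one_mul, zero_add, hB.zero, sub_zero]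
      rw [← ENNReal.ofReal_mul (by positivity)]
      congr 1
      ring
    have h2 : x 0 ≤ ENNReal.ofReal 2 := by
      calc x 0 ≤ ∫⁻ ω, X 0 ω ∂μ := setLIntegral_le_lintegral _ _
        _ = ENNReal.ofReal (1 / s) * ∫⁻ ω, ENNReal.ofReal (‖B (0 + s) ω - B 0 ω‖ ^ 2) ∂μ := by
            simp_rw [h1]
            rw [lintegral_const_mul' _ _ ENNReal.ofReal_ne_top]
        _ ≤ ENNReal.ofReal (1 / s) * ENNReal.ofReal (2 * s) := by
            gcongr
            exact itb_inc h_AFF hB le_rfl hs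
        _ = ENNReal.ofReal 2 := by
            rw [← ENNReal.ofReal_mul (by positivity)]
            congr 1
            field_simp
    calc p 0 + ENNReal.ofReal (1 / 16) * x 0
        ≤ ENNReal.ofReal 1 + ENNReal.ofReal (1 / 16) * ENNReal.ofReal 2 := by
          rw [ENNReal.ofReal_one]
          gcongr
      _ ≤ ENNReal.ofReal 2 := by
          rw [← ENNReal.ofReal_mul (by norm_num), ← ENNReal.ofReal_add (by norm_num) (by norm_num)]
          apply ENNReal.ofReal_le_ofReal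
          norm_num
  -- the recursion
  have rec1 : ∀ n, p (n + 1) + ENNReal.ofReal (1 / 16) * x (n + 1) ≤
      ENNReal.ofReal (1 / 2) * (p n + ENNReal.ofReal (1 / 16) * x n) := by
    intro n
    calc p (n + 1) + ENNReal.ofReal (1 / 16) * x (n + 1)
        ≤ (ENNReal.ofReal (13 / 64) * p n + ENNReal.ofReal (3 / 128) * x n) +
          ENNReal.ofReal (1 / 16) * (ENNReal.ofReal (1 / 8) * x n + ENNReal.ofReal 4 * p n) := by
          gcongr
          · exact est1 n
          · exact est2 n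
      _ = (ENNReal.ofReal (13 / 64) + ENNReal.ofReal (1 / 16) * ENNReal.ofReal 4) * p n +
          (ENNReal.ofReal (3 / 128) + ENNReal.ofReal (1 / 16) * ENNReal.ofReal (1 / 8)) * x n := by
          ring
      _ = ENNReal.ofReal (29 / 64) * p n + ENNReal.ofReal (1 / 32) * x n := by
          rw [← ENNReal.ofReal_mul (by norm_num), ← ENNReal.ofReal_mul (by norm_num),
            ← ENNReal.ofReal_add (by norm_num) (by norm_num),
            ← ENNReal.ofReal_add (by norm_num) (by norm_num)]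
          norm_num
      _ ≤ ENNReal.ofReal (1 / 2) * p n + ENNReal.ofReal (1 / 32) * x n := by
          have h9 : ENNReal.ofReal (29 / 64) ≤ ENNReal.ofReal (1 / 2) :=
            ENNReal.ofReal_le_ofReal (by norm_num)
          exact add_le_add (mul_le_mul' h9 le_rfl) le_rfl
      _ = ENNReal.ofReal (1 / 2) * (p n + ENNReal.ofReal (1 / 16) * x n) := by
          rw [mul_add, ← mul_assoc, ← ENNReal.ofReal_mul (by norm_num)]
          norm_num
  have rec2 : ∀ n, p n + ENNReal.ofReal (1 / 16) * x n ≤ ENNReal.ofReal (2 / 2 ^ n) := by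
    intro n
    induction n with
    | zero => simpa using est0
    | succ n ih =>
      refine (rec1 n).trans ?_
      refine (mul_le_mul_right ih _).trans ?_
      rw [← ENNReal.ofReal_mul (by norm_num)]
      apply ENNReal.ofReal_le_ofReal
      apply le_of_eq
      field_simp
      ring
  intro n
  exact le_self_add.trans (rec2 n)

end Pool.ADJ
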