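import Pool.Agent.H99.ADJ.EVT

/-! # Project ADJ, module ITR: the iteration -/

set_option autoImplicit false

open MeasureTheory ProbabilityTheory Set Filter Topology
open scoped NNReal ENNReal NNRat

namespace Pool.ADJ

private theorem itr_sq_le (x : Pl) : ‖x‖ ^ 2 ≤ x 0 ^ 2 + x 1 ^ 2 := by
  have h0 : 0 ≤ x 0 ^ 2 + x 1 ^ 2 := by positivity
  have h1 : ‖x‖ ≤ √(x 0 ^ 2 + x 1 ^ 2) := by
    rw [pi_norm_le_iff_of_nonneg (Real.sqrt_nonneg _)]
    intro i
    rw [Real.norm_eq_abs]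
    apply Real.abs_le_sqrt
    fin_cases i
    · simp only [Fin.zero_eta, Fin.isValue, le_add_iff_nonneg_right]
      positivity
    · simp only [Fin.mk_one, Fin.isValue, le_add_iff_nonneg_left]
      positivity
  calc ‖x‖ ^ 2 ≤ √(x 0 ^ 2 + x 1 ^ 2) ^ 2 := by gcongr
    _ = x 0 ^ 2 + x 1 ^ 2 := Real.sq_sqrt h0

variable {Ω : Type} [MeasurableSpace Ω] {μ : Measure Ω} {B : ℝ → Ω → Pl}

/-- the second moment -/
private theorem itr_one (hB : PB μ B) : ∫⁻ ω, ENNReal.ofReal (‖B 1 ω‖ ^ 2) ∂μ ≤ 2 := by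
  have hp := hB.gp.isProbabilityMeasure
  have hm : ∀ i : Fin 2, MemLp (fun ω => B 1 ω i) 2 μ := by
    intro i
    have h := (hB.gp.hasGaussianLaw_eval ((1 : ℝ≥0), i)).memLp_two
    simpa using h
  have hI : ∀ i : Fin 2, Integrable (fun ω => B 1 ω i ^ 2) μ := fun i => (hm i).integrable_sq
  have hE : ∀ i : Fin 2, ∫ ω, B 1 ω i ^ 2 ∂μ = 1 := by
    intro i
    have h1 := hB.cov ((1 : ℝ≥0), i) ((1 : ℝ≥0), i)
    have h2 := hB.mean ((1 : ℝ≥0), i)
    simp only [NNReal.coe_one, min_self, if_true] at h1 h2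
    rw [covariance_self (hm i).aemeasurable, variance_eq_sub (hm i), h2] at h1
    simpa using h1
  calc ∫⁻ ω, ENNReal.ofReal (‖B 1 ω‖ ^ 2) ∂μ
      ≤ ∫⁻ ω, ENNReal.ofReal (B 1 ω 0 ^ 2 + B 1 ω 1 ^ 2) ∂μ :=
        lintegral_mono fun ω => ENNReal.ofReal_le_ofReal (itr_sq_le _)
    _ = ENNReal.ofReal (∫ ω, (B 1 ω 0 ^ 2 + B 1 ω 1 ^ 2) ∂μ) :=
        (ofReal_integral_eq_lintegral_ofReal ((hI 0).add (hI 1))
          (ae_of_all _ fun ω => add_nonneg (sq_nonneg _) (sq_nonneg _))).symm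
    _ = 2 := by
        rw [integral_add (hI 0) (hI 1), hE 0, hE 1]
        norm_num

private theorem itr_inc (h_AFF : S_AFF) (hB : PB μ B) {a c : ℝ} (ha : 0 ≤ a) (hc : 0 < c) :
    ∫⁻ ω, ENNReal.ofReal (‖B (a + c) ω - B a ω‖ ^ 2) ∂μ ≤ ENNReal.ofReal (2 * c) := by
  have h1 := itr_one (h_AFF Ω μ B hB a c ha hc)
  have h2 : ∀ ω, ENNReal.ofReal (‖B (a + c) ω - B a ω‖ ^ 2) =
      ENNReal.ofReal c * ENNReal.ofReal (‖(√c)⁻¹ • (B (a + c * 1) ω - B a ω)‖ ^ 2) := by
    intro ω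
    rw [← ENNReal.ofReal_mul hc.le, norm_smul, mul_pow, norm_inv,
      Real.norm_of_nonneg (Real.sqrt_nonneg c), inv_pow, Real.sq_sqrt hc.le, mul_one]
    congr 1
    field_simp
  simp_rw [h2]
  rw [lintegral_const_mul' _ _ ENNReal.ofReal_ne_top]
  calc ENNReal.ofReal c * ∫⁻ ω, ENNReal.ofReal (‖(√c)⁻¹ • (B (a + c * 1) ω - B a ω)‖ ^ 2) ∂μ
      ≤ ENNReal.ofReal c * 2 := by gcongr
    _ = ENNReal.ofReal (2 * c) := by
        rw [mul_comm, ENNReal.ofReal_mul (by norm_num)]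
        norm_num

private theorem itr_ind (h_IND : S_IND) (hB : PB μ B) {ι : Type} [Countable ι] (t : ι → ℝ)
    {a c : ℝ} (ha : 0 ≤ a) (hc : 0 < c) (ht : ∀ i, 0 ≤ t i ∧ t i ≤ a) (S : Set (ι → Pl))
    (hS : MeasurableSet S) :
    ∫⁻ ω in {ω | (fun i => B (t i) ω) ∈ S}, ENNReal.ofReal (‖B (a + c) ω - B a ω‖ ^ 2) ∂μ =
      μ {ω | (fun i => B (t i) ω) ∈ S} *
        ∫⁻ ω, ENNReal.ofReal (‖B (a + c) ω - B a ω‖ ^ 2) ∂μ := by
  have h1 := h_IND Ω μ B hB ι Unit t (fun _ => c) a ha ht (fun _ => hc.le)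
  have hpre : Measurable (fun ω i => B (t i) ω) :=
    measurable_pi_lambda _ fun i => hB.meas _ (ht i).1
  have hA : MeasurableSet {ω | (fun i => B (t i) ω) ∈ S} := hpre hS
  have hpost : Measurable (fun ω (_ : Unit) => B (a + c) ω - B a ω) :=
    measurable_pi_lambda _ fun _ => (hB.meas _ (by linarith)).sub (hB.meas _ ha)
  have hf : Measurable (S.indicator (fun _ => (1 : ℝ≥0∞))) := measurable_one.indicator hS
  have hg : Measurable (fun v : Unit → Pl => ENNReal.ofReal (‖v ()‖ ^ 2)) := by fun_prop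
  have h2 := lintegral_mul_eq_lintegral_mul_lintegral_of_indepFun (hf.comp hpre) (hg.comp hpost)
    (h1.comp hf hg)
  rw [← lintegral_indicator hA]
  have e1 : ∀ ω, ({ω | (fun i => B (t i) ω) ∈ S}).indicator
      (fun ω => ENNReal.ofReal (‖B (a + c) ω - B a ω‖ ^ 2)) ω =
      ((S.indicator (fun _ => (1 : ℝ≥0∞)) ∘ fun ω i => B (t i) ω) *
        ((fun v : Unit → Pl => ENNReal.ofReal (‖v ()‖ ^ 2)) ∘
          fun ω (_ : Unit) => B (a + c) ω - B a ω)) ω := by
    intro ω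
    simp only [Pi.mul_apply, Function.comp_apply]
    by_cases h : (fun i => B (t i) ω) ∈ S
    · rw [indicator_of_mem (by exact h), indicator_of_mem h, one_mul]
    · rw [indicator_of_notMem (by exact h), indicator_of_notMem h, zero_mul]
  simp_rw [e1]
  rw [h2]
  congr 1
  have e2 : ∀ ω, (S.indicator (fun _ => (1 : ℝ≥0∞)) ∘ fun ω i => B (t i) ω) ω =
      ({ω | (fun i => B (t i) ω) ∈ S}).indicator (fun _ => 1) ω := by
    intro ω
    simp only [Function.comp_apply]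
    by_cases h : (fun i => B (t i) ω) ∈ S
    · rw [indicator_of_mem h, indicator_of_mem (by exact h)]
    · rw [indicator_of_notMem h, indicator_of_notMem (by exact h)]
  simp_rw [e2]
  rw [lintegral_indicator hA]
  simp

theorem itr_thm (h_MEA : S_MEA) (h_MKV : S_MKV) (h_IND : S_IND) (h_AFF : S_AFF) : S_ITR := by
  intro Ω _ μ B hB hδ
  have hp := hB.gp.isProbabilityMeasure
  obtain ⟨δ, hδ0, hδ⟩ := hδ
  set h : Pl → ℝ≥0∞ := fun x => μ {ω | LinkedInf (tr B ω 0 1) x} with hh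
  have hmeas : Measurable h := (h_MKV Ω μ B hB).2.1
  have hle : ∀ x, h x ≤ 1 := fun x => prob_le_one
  obtain ⟨M, hM⟩ : ∃ M, M = 1 / δ ^ 2 := ⟨_, rfl⟩
  have hM0 : 0 < M := by rw [hM]; positivity
  have hb : ∀ x, h x ≤ 1 / 4 + ENNReal.ofReal (M * ‖x‖ ^ 2) := by
    intro x
    by_cases hx : ‖x‖ < δ
    · exact (hδ x hx).trans le_self_add
    · refine (hle x).trans ?_
      refine le_trans ?_ le_add_self
      rw [ENNReal.one_le_ofReal, hM]
      rw [not_lt] at hx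
      rw [one_div, inv_mul_eq_div, one_le_div (by positivity)]
      gcongr
  obtain ⟨L, hL⟩ : ∃ L, L = 8 + 64 * M := ⟨_, rfl⟩
  have hL8 : 8 ≤ L := by rw [hL]; linarith
  have hL0 : 0 < L := by linarith
  refine ⟨L, by linarith, 2, by norm_num, fun z s hs => ?_⟩
  obtain ⟨S, hS, hS2⟩ := evt h_MEA z
  -- the times
  have htp : ∀ j : ℕ, 0 < L ^ j * s := fun j => by positivity
  have hts : ∀ j : ℕ, L ^ (j + 1) * s = L ^ j * s + (L - 1) * (L ^ j * s) := fun j => by ring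
  have htm : ∀ j n : ℕ, j ≤ n → L ^ j * s ≤ L ^ n * s := by
    intro j n hjn
    have : L ^ j ≤ L ^ n := pow_le_pow_right₀ (by linarith) hjn
    gcongr
  -- the events
  set A : ℕ → Set Ω := fun n =>
    {ω | ∀ j < n, LinkedInf (tr B ω (L ^ j * s) (L ^ (j + 1) * s)) z} with hAdef
  set tt : (n : ℕ) → Fin n × Q1 → ℝ := fun n i =>
    L ^ (i.1 : ℕ) * s + (L ^ ((i.1 : ℕ) + 1) * s - L ^ (i.1 : ℕ) * s) * ((i.2 : ℚ≥0) : ℝ) with htt
  set SS : (n : ℕ) → Set (Fin n × Q1 → Pl) := fun n => {f | ∀ j : Fin n, (fun q => f (j, q)) ∈ S}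
    with hSS
  have htt1 : ∀ n i, 0 ≤ tt n i ∧ tt n i ≤ L ^ n * s := by
    intro n i
    have h1 : (0 : ℝ) ≤ ((i.2 : ℚ≥0) : ℝ) := by positivity
    have h2 : ((i.2 : ℚ≥0) : ℝ) ≤ 1 := by exact_mod_cast i.2.2
    have h3 := htp i.1
    have h4 : L ^ (i.1 : ℕ) * s ≤ L ^ ((i.1 : ℕ) + 1) * s := htm _ _ (Nat.le_succ _)
    have h5 : L ^ ((i.1 : ℕ) + 1) * s ≤ L ^ n * s := htm _ _ i.1.2
    refine ⟨?_, ?_⟩
    · have : 0 ≤ (L ^ ((i.1 : ℕ) + 1) * s - L ^ (i.1 : ℕ) * s) * ((i.2 : ℚ≥0) : ℝ) :=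
        mul_nonneg (by linarith) h1
      simp only [htt]
      linarith
    · have : (L ^ ((i.1 : ℕ) + 1) * s - L ^ (i.1 : ℕ) * s) * ((i.2 : ℚ≥0) : ℝ) ≤
          (L ^ ((i.1 : ℕ) + 1) * s - L ^ (i.1 : ℕ) * s) * 1 :=
        mul_le_mul_of_nonneg_left h2 (by linarith)
      simp only [htt]
      linarith
  have hSSm : ∀ n, MeasurableSet (SS n) := by
    intro n
    have : SS n = ⋂ j : Fin n, (fun (f : Fin n × Q1 → Pl) (q : Q1) => f (j, q)) ⁻¹' S := by
      ext f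
      simp [hSS]
    rw [this]
    exact MeasurableSet.iInter fun j => (measurable_pi_lambda _ fun q =>
      measurable_pi_apply (j, q)) hS
  have hAe : ∀ n, A n = {ω | (fun i => B (tt n i) ω) ∈ SS n} := by
    intro n
    ext ω
    constructor
    · intro hω j
      exact (hS2 B ω (hB.cont ω) _ _ (htm _ _ (Nat.le_succ _))).1 (hω j j.2)
    · intro hω j hj
      exact (hS2 B ω (hB.cont ω) _ _ (htm _ _ (Nat.le_succ _))).2 (hω ⟨j, hj⟩)
  -- the weights
  set X : ℕ → Ω → ℝ≥0∞ := fun n ω => ENNReal.ofReal (‖z - B (L ^ n * s) ω‖ ^ 2 / (L ^ n * s)) with hX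
  have hXm : ∀ n, Measurable (X n) := by
    intro n
    have := hB.meas _ (htp n).le
    fun_prop
  set p : ℕ → ℝ≥0∞ := fun n => μ (A n) with hpdef
  set x : ℕ → ℝ≥0∞ := fun n => ∫⁻ ω in A n, X n ω ∂μ with hxdef
  -- first estimate
  have est1 : ∀ n, p (n + 1) ≤ 1 / 4 * p n + ENNReal.ofReal (1 / 64) * x n := by
    intro n
    obtain ⟨c, hc⟩ : ∃ c, c = (L - 1) * (L ^ n * s) := ⟨_, rfl⟩
    have hc0 : 0 < c := by rw [hc]; exact mul_pos (by linarith) (htp n)
    have h1 := (h_MKV Ω μ B hB).2.2 (Fin n × Q1) (tt n) (L ^ n * s) c (htp n).le hc0 (htt1 n)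
      (SS n) (hSSm n) z
    rw [← hAe n] at h1
    have h2 : A (n + 1) = A n ∩ {ω | LinkedInf (tr B ω (L ^ n * s) (L ^ n * s + c)) z} := by
      ext ω
      rw [hc, ← hts n]
      constructor
      · intro hω
        exact ⟨fun j hj => hω j (by omega), hω n (by omega)⟩
      · rintro ⟨h1, h2⟩ j hj
        rcases Nat.lt_succ_iff_lt_or_eq.1 hj with h | h
        · exact h1 j h
        · rw [h]; exact h2
    have h3 : p (n + 1) = ∫⁻ ω in A n, h ((√c)⁻¹ • (z - B (L ^ n * s) ω)) ∂μ := by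
      simp only [hpdef]
      rw [h2, h1]
    rw [h3]
    have h4 : ∀ ω, h ((√c)⁻¹ • (z - B (L ^ n * s) ω)) ≤
        1 / 4 + ENNReal.ofReal (1 / 64) * X n ω := by
      intro ω
      refine (hb _).trans ?_
      gcongr
      simp only [hX]
      rw [← ENNReal.ofReal_mul (by norm_num)]
      apply ENNReal.ofReal_le_ofReal
      rw [norm_smul, mul_pow, norm_inv, Real.norm_of_nonneg (Real.sqrt_nonneg c), inv_pow,
        Real.sq_sqrt hc0.le, hc]
      have h5 : 64 * M ≤ L - 1 := by rw [hL]; linarith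
      have h6 : 0 < L - 1 := by linarith
      have h7 := htp n
      have h8 : 0 ≤ ‖z - B (L ^ n * s) ω‖ ^ 2 := by positivity
      have e1 : M * (((L - 1) * (L ^ n * s))⁻¹ * ‖z - B (L ^ n * s) ω‖ ^ 2) =
          (M / (L - 1)) * (‖z - B (L ^ n * s) ω‖ ^ 2 / (L ^ n * s)) := by
        field_simp
      rw [e1]
      have h9 : M / (L - 1) ≤ 1 / 64 := by
        rw [div_le_div_iff₀ h6 (by norm_num)]
        linarith
      gcongr
    calc ∫⁻ ω in A n, h ((√c)⁻¹ • (z - B (L ^ n * s) ω)) ∂μ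
        ≤ ∫⁻ ω in A n, (1 / 4 + ENNReal.ofReal (1 / 64) * X n ω) ∂μ := lintegral_mono h4
      _ = 1 / 4 * p n + ENNReal.ofReal (1 / 64) * x n := by
          rw [lintegral_add_left measurable_const, setLIntegral_const,
            lintegral_const_mul' _ _ ENNReal.ofReal_ne_top]
  -- second estimate
  have est2 : ∀ n, x (n + 1) ≤ ENNReal.ofReal (1 / 4) * x n + 4 * p n := by
    intro n
    obtain ⟨c, hc⟩ : ∃ c, c = (L - 1) * (L ^ n * s) := ⟨_, rfl⟩
    have hc0 : 0 < c := by rw [hc]; exact mul_pos (by linarith) (htp n)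
    have hsub : A (n + 1) ⊆ A n := fun ω hω j hj => hω j (by omega)
    have hT : L ^ (n + 1) * s = L ^ n * s + c := by rw [hc]; exact hts n
    have hT0 := htp (n + 1)
    have h1 : ∀ ω, X (n + 1) ω ≤ ENNReal.ofReal (1 / 4) * X n ω +
        ENNReal.ofReal (2 / (L ^ (n + 1) * s)) *
          ENNReal.ofReal (‖B (L ^ n * s + c) ω - B (L ^ n * s) ω‖ ^ 2) := by
      intro ω
      simp only [hX]
      rw [← ENNReal.ofReal_mul (by norm_num), ← ENNReal.ofReal_mul (by positivity),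
        ← ENNReal.ofReal_add (by positivity) (by positivity)]
      apply ENNReal.ofReal_le_ofReal
      rw [hT]
      set u := z - B (L ^ n * s) ω with hu
      set v := B (L ^ n * s + c) ω - B (L ^ n * s) ω with hv
      have e1 : z - B (L ^ n * s + c) ω = u - v := by rw [hu, hv]; abel
      have e2 : ‖u - v‖ ^ 2 ≤ 2 * ‖u‖ ^ 2 + 2 * ‖v‖ ^ 2 := by
        have h3 := norm_sub_le u v
        have h4 : ‖u - v‖ ^ 2 ≤ (‖u‖ + ‖v‖) ^ 2 := by gcongr
        nlinarith [sq_nonneg (‖u‖ - ‖v‖)]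
      rw [e1, ← hT]
      calc ‖u - v‖ ^ 2 / (L ^ (n + 1) * s) ≤ (2 * ‖u‖ ^ 2 + 2 * ‖v‖ ^ 2) / (L ^ (n + 1) * s) := by
            gcongr
        _ = (2 / L) * (‖u‖ ^ 2 / (L ^ n * s)) + 2 / (L ^ (n + 1) * s) * ‖v‖ ^ 2 := by
            field_simp
            ring
        _ ≤ 1 / 4 * (‖u‖ ^ 2 / (L ^ n * s)) + 2 / (L ^ (n + 1) * s) * ‖v‖ ^ 2 := by
            have h9 : 2 / L ≤ 1 / 4 := by
              rw [div_le_div_iff₀ hL0 (by norm_num)]
              linarith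
            have := htp n
            gcongr
    have h2 := itr_ind h_IND hB (tt n) (htp n).le hc0 (htt1 n) (SS n) (hSSm n)
    rw [← hAe n] at h2
    calc x (n + 1) ≤ ∫⁻ ω in A n, X (n + 1) ω ∂μ := lintegral_mono_set hsub
      _ ≤ ∫⁻ ω in A n, (ENNReal.ofReal (1 / 4) * X n ω + ENNReal.ofReal (2 / (L ^ (n + 1) * s)) *
          ENNReal.ofReal (‖B (L ^ n * s + c) ω - B (L ^ n * s) ω‖ ^ 2)) ∂μ := lintegral_mono h1
      _ = ENNReal.ofReal (1 / 4) * x n + ENNReal.ofReal (2 / (L ^ (n + 1) * s)) *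
          (p n * ∫⁻ ω, ENNReal.ofReal (‖B (L ^ n * s + c) ω - B (L ^ n * s) ω‖ ^ 2) ∂μ) := by
          rw [lintegral_add_left ((hXm n).const_mul _), lintegral_const_mul' _ _ ENNReal.ofReal_ne_top,
            lintegral_const_mul' _ _ ENNReal.ofReal_ne_top, h2]
      _ ≤ ENNReal.ofReal (1 / 4) * x n + ENNReal.ofReal (2 / (L ^ (n + 1) * s)) *
          (p n * ENNReal.ofReal (2 * c)) := by
          gcongr
          exact itr_inc h_AFF hB (htp n).le hc0
      _ ≤ ENNReal.ofReal (1 / 4) * x n + 4 * p n := by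
          have h5 : 2 / (L ^ (n + 1) * s) * (2 * c) ≤ 4 := by
            rw [div_mul_eq_mul_div, div_le_iff₀ hT0, hT]
            have := htp n
            nlinarith
          have h6 : ENNReal.ofReal (2 / (L ^ (n + 1) * s) * (2 * c)) ≤ 4 := by
            refine (ENNReal.ofReal_le_ofReal h5).trans ?_
            norm_num
          have h7 : ENNReal.ofReal (2 / (L ^ (n + 1) * s)) * (p n * ENNReal.ofReal (2 * c)) =
              ENNReal.ofReal (2 / (L ^ (n + 1) * s) * (2 * c)) * p n := by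
            rw [ENNReal.ofReal_mul (p := 2 / (L ^ (n + 1) * s)) (by positivity)]
            ring
          rw [h7]
          gcongr
  -- the start
  have est0 : p 0 + ENNReal.ofReal (1 / 16) * x 0 ≤ ENNReal.ofReal (2 * (1 + ‖z‖ ^ 2 / s)) := by
    have hp0 : p 0 ≤ 1 := prob_le_one
    have h1 : ∀ ω, X 0 ω ≤ ENNReal.ofReal (2 * ‖z‖ ^ 2 / s) +
        ENNReal.ofReal (2 / s) * ENNReal.ofReal (‖B (0 + s) ω - B 0 ω‖ ^ 2) := by
      intro ω
      simp only [hX, pow_zero, one_mul, zero_add, hB.zero, sub_zero]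
      rw [← ENNReal.ofReal_mul (by positivity),
        ← ENNReal.ofReal_add (by positivity) (by positivity)]
      apply ENNReal.ofReal_le_ofReal
      have h3 := norm_sub_le z (B s ω)
      have h4 : ‖z - B s ω‖ ^ 2 ≤ (‖z‖ + ‖B s ω‖) ^ 2 := by gcongr
      have h5 : ‖z - B s ω‖ ^ 2 ≤ 2 * ‖z‖ ^ 2 + 2 * ‖B s ω‖ ^ 2 := by
        nlinarith [sq_nonneg (‖z‖ - ‖B s ω‖)]
      calc ‖z - B s ω‖ ^ 2 / s ≤ (2 * ‖z‖ ^ 2 + 2 * ‖B s ω‖ ^ 2) / s := by gcongr
        _ = 2 * ‖z‖ ^ 2 / s + 2 / s * ‖B s ω‖ ^ 2 := by field_simp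
    have h2 : x 0 ≤ ENNReal.ofReal (2 * ‖z‖ ^ 2 / s) + ENNReal.ofReal 4 := by
      calc x 0 ≤ ∫⁻ ω, X 0 ω ∂μ := setLIntegral_le_lintegral _ _
        _ ≤ ∫⁻ ω, (ENNReal.ofReal (2 * ‖z‖ ^ 2 / s) +
            ENNReal.ofReal (2 / s) * ENNReal.ofReal (‖B (0 + s) ω - B 0 ω‖ ^ 2)) ∂μ :=
            lintegral_mono h1
        _ = ENNReal.ofReal (2 * ‖z‖ ^ 2 / s) + ENNReal.ofReal (2 / s) *
            ∫⁻ ω, ENNReal.ofReal (‖B (0 + s) ω - B 0 ω‖ ^ 2) ∂μ := by
            rw [lintegral_add_left measurable_const, lintegral_const, measure_univ, mul_one,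
              lintegral_const_mul' _ _ ENNReal.ofReal_ne_top]
        _ ≤ ENNReal.ofReal (2 * ‖z‖ ^ 2 / s) + ENNReal.ofReal (2 / s) * ENNReal.ofReal (2 * s) := by
            gcongr
            exact itr_inc h_AFF hB le_rfl hs
        _ = ENNReal.ofReal (2 * ‖z‖ ^ 2 / s) + ENNReal.ofReal 4 := by
            rw [← ENNReal.ofReal_mul (by positivity)]
            congr 2
            field_simp
            norm_num
    calc p 0 + ENNReal.ofReal (1 / 16) * x 0
        ≤ ENNReal.ofReal 1 + ENNReal.ofReal (1 / 16) *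
          (ENNReal.ofReal (2 * ‖z‖ ^ 2 / s) + ENNReal.ofReal 4) := by
          rw [ENNReal.ofReal_one]
          gcongr
      _ = ENNReal.ofReal (1 + 1 / 16 * (2 * ‖z‖ ^ 2 / s + 4)) := by
          rw [← ENNReal.ofReal_add (by positivity) (by positivity),
            ← ENNReal.ofReal_mul (by positivity), ← ENNReal.ofReal_add (by positivity)
              (by positivity)]
      _ ≤ ENNReal.ofReal (2 * (1 + ‖z‖ ^ 2 / s)) := by
          apply ENNReal.ofReal_le_ofReal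
          have h6 : 0 ≤ ‖z‖ ^ 2 / s := by positivity
          have e : 2 * ‖z‖ ^ 2 / s = 2 * (‖z‖ ^ 2 / s) := by ring
          rw [e]
          linarith
  -- the recursion
  have rec1 : ∀ n, p (n + 1) + ENNReal.ofReal (1 / 16) * x (n + 1) ≤
      ENNReal.ofReal (1 / 2) * (p n + ENNReal.ofReal (1 / 16) * x n) := by
    intro n
    have e4 : (1 / 4 : ℝ≥0∞) = ENNReal.ofReal (1 / 4) := by
      rw [ENNReal.ofReal_div_of_pos (by norm_num), ENNReal.ofReal_one]
      norm_num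
    have e5 : (4 : ℝ≥0∞) = ENNReal.ofReal 4 := by norm_num
    calc p (n + 1) + ENNReal.ofReal (1 / 16) * x (n + 1)
        ≤ (ENNReal.ofReal (1 / 4) * p n + ENNReal.ofReal (1 / 64) * x n) +
          ENNReal.ofReal (1 / 16) * (ENNReal.ofReal (1 / 4) * x n + ENNReal.ofReal 4 * p n) := by
          rw [← e4, ← e5]
          gcongr
          · exact est1 n
          · rw [e4]; exact est2 n
      _ = (ENNReal.ofReal (1 / 4) + ENNReal.ofReal (1 / 16) * ENNReal.ofReal 4) * p n +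
          (ENNReal.ofReal (1 / 64) + ENNReal.ofReal (1 / 16) * ENNReal.ofReal (1 / 4)) * x n := by
          ring
      _ = ENNReal.ofReal (1 / 2) * p n + ENNReal.ofReal (1 / 32) * x n := by
          rw [← ENNReal.ofReal_mul (by norm_num), ← ENNReal.ofReal_mul (by norm_num),
            ← ENNReal.ofReal_add (by norm_num) (by norm_num),
            ← ENNReal.ofReal_add (by norm_num) (by norm_num)]
          norm_num
      _ = ENNReal.ofReal (1 / 2) * (p n + ENNReal.ofReal (1 / 16) * x n) := by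
          rw [mul_add, ← mul_assoc, ← ENNReal.ofReal_mul (by norm_num)]
          norm_num
  have rec2 : ∀ n, p n + ENNReal.ofReal (1 / 16) * x n ≤
      ENNReal.ofReal (2 * (1 + ‖z‖ ^ 2 / s) / 2 ^ n) := by
    intro n
    induction n with
    | zero => simpa using est0
    | succ n ih =>
      refine (rec1 n).trans ?_
      refine (mul_le_mul_right ih _).trans ?_
      rw [← ENNReal.ofReal_mul (by norm_num)]
      apply ENNReal.ofReal_le_ofReal
      apply le_of_eq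
      field_simp
      ring
  intro n
  exact le_self_add.trans (rec2 n)

end Pool.ADJ
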