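import Pool.Agent.H24.ADJ.AFF
import Pool.Agent.H24.ADJ.CPL
import Pool.Agent.H31.ADJ.LAW
import Pool.Agent.H31.ADJ.MEA
import Pool.Agent.H34.ADJ.TWC
import Pool.Agent.H58.ADJ.EXT
import Pool.Agent.H58.ADJ.INV
import Pool.Agent.H58.ADJ.ONE
import Pool.Agent.H58.ADJ.TWB
import Pool.Agent.H65.ADJ.GMK
import Pool.Agent.H65.ADJ.MEB
import Pool.Agent.H81.ADJ.IND
import Pool.Agent.H81.ADJ.MKV
import Pool.Agent.H83.ADJ.ROT
import Pool.Agent.H87.ADJ.RAD
import Pool.Agent.H95.ADJ.DEB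
import Pool.Agent.H95.ADJ.HIT
import Pool.Agent.H95.ADJ.HLW
import Pool.Agent.H95.ADJ.SEB
import Pool.Agent.H99.ADJ.ZO2
import Pool.Agent.H99.ADJ.ITB
import Pool.Agent.H99.ADJ.Fin2

/-! # Project ADJ: the main theorem, all modules but POL plugged in -/

set_option autoImplicit false

open MeasureTheory ProbabilityTheory Set Filter Topology
open scoped NNReal ENNReal NNRat

namespace Pool.ADJ

theorem main3 (h_POL : S_POL) :
    (∀ (Ω : Type) [MeasurableSpace Ω] (μ : Measure Ω) [IsProbabilityMeasure μ] (B : ℝ → Ω → Pl),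
      IsPBM μ B → AltH μ B) ∨
    ∃ C α : ℝ, 0 < C ∧ 0 < α ∧
      ∀ (Ω : Type) [MeasurableSpace Ω] (μ : Measure Ω) [IsProbabilityMeasure μ]
        (B : ℝ → Ω → Pl), IsPBM μ B →
        AltA μ B ∧ AltB μ B ∧ ∀ r t : ℝ, 0 < r → 0 < t →
          μ {ω | BallInf (tr B ω 0 t) r} ≤ ENNReal.ofReal (C * (r ^ 2 / t) ^ α) := by
  have h_HLW := hlw_thm law_thm mea_thm
  have h_MKV := mkv_thm aff_thm ind_thm law_thm mea_thm inv_thm
  have h_RAD := rad_thm rot_thm inv_thm h_HLW h_MKV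
  have h_MEB := meb_thm mea_thm
  have h_GMK := gmk_thm aff_thm ind_thm law_thm
  exact main2 cpl_thm aff_thm law_thm h_POL h_HLW h_MKV h_MEB
    (zo2_thm mea_thm h_MKV h_RAD h_POL)
    (itb_thm h_MEB h_MKV h_GMK (hit_thm h_POL) ind_thm aff_thm)
    seb_thm deb_thm (one_thm ext_thm) (twc_thm ext_thm inv_thm) twb_thm

end Pool.ADJ
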