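import Pool.Agent.H99.ADJ.EVT

/-! # Project ADJ, module ZON: the zero-one law -/

set_option autoImplicit false

open MeasureTheory ProbabilityTheory Set Filter Topology
open scoped NNReal ENNReal NNRat

namespace Pool.ADJ

private theorem zon_sq_le (x : Pl) : ‖x‖ ^ 2 ≤ x 0 ^ 2 + x 1 ^ 2 := by
  have h0 : 0 ≤ x 0 ^ 2 + x 1 ^ 2 := by positivity
  have h1 : ‖x‖ ≤ √(x 0 ^ 2 + x 1 ^ 2) := by
    rw [pi_norm_le_iff_of_nonneg (Real.sqrt_nonneg _)]
    intro i
    rw [Real.norm_eq_abs]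
    apply Real.abs_le_sqrt
    fin_cases i
    · simp only [Fin.zero_eta, Fin.isValue, le_add_iff_nonneg_right]
      positivity
    · simp only [Fin.mk_one, Fin.isValue, le_add_iff_nonneg_left]
      positivity
  calc ‖x‖ ^ 2 ≤ √(x 0 ^ 2 + x 1 ^ 2) ^ 2 := by gcongr
    _ = x 0 ^ 2 + x 1 ^ 2 := Real.sq_sqrt h0

private theorem zon_le_sq (x : Pl) : x 0 ^ 2 + x 1 ^ 2 ≤ 2 * ‖x‖ ^ 2 := by
  have h : ∀ i, x i ^ 2 ≤ ‖x‖ ^ 2 := by
    intro i
    have := norm_le_pi_norm x i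
    rw [Real.norm_eq_abs] at this
    rw [← sq_abs (x i)]
    gcongr
  linarith [h 0, h 1]

theorem zon_thm (h_MEA : S_MEA) (h_MKV : S_MKV) (h_RAD : S_RAD) (h_POL : S_POL) : S_ZON := by
  intro Ω _ μ B hB
  have hp := hB.gp.isProbabilityMeasure
  set h : Pl → ℝ≥0∞ := fun x => μ {ω | LinkedInf (tr B ω 0 1) x} with hh
  have hmeas : Measurable h := (h_MKV Ω μ B hB).2.1
  have hle : ∀ x, h x ≤ 1 := fun x => prob_le_one
  set l : ℝ≥0∞ := ⨅ (x : Pl) (_ : x ≠ 0), h x with hl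
  have hll : ∀ x, x ≠ 0 → l ≤ h x := fun x hx => iInf₂_le x hx
  have hl1 : l ≤ 1 := by
    refine (hll (fun _ => 1) ?_).trans (hle _)
    intro h0
    have := congrFun h0 0
    simp at this
  have hltop : l ≠ ⊤ := ne_top_of_le_ne_top ENNReal.one_ne_top hl1
  -- the limit
  have hlim : ∀ z : Pl, z ≠ 0 → Tendsto (fun n : ℕ => h ((√(n : ℝ))⁻¹ • z)) atTop (𝓝 l) := by
    intro z hz
    have hne : ∀ n : ℕ, 1 ≤ n → (√(n : ℝ))⁻¹ • z ≠ 0 := by
      intro n hn
      have : (0 : ℝ) < n := by exact_mod_cast hn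
      exact smul_ne_zero (by positivity) hz
    refine tendsto_order.2 ⟨fun a ha => ?_, fun a ha => ?_⟩
    · filter_upwards [eventually_ge_atTop 1] with n hn
      exact ha.trans_le (hll _ (hne n hn))
    · obtain ⟨y, hy0, hy⟩ : ∃ y : Pl, y ≠ 0 ∧ h y < a := by
        rw [gt_iff_lt, hl, iInf_lt_iff] at ha
        obtain ⟨y, hy⟩ := ha
        rw [iInf_lt_iff] at hy
        obtain ⟨hy0, hy⟩ := hy
        exact ⟨y, hy0, hy⟩
      have hy2 : 0 < y 0 ^ 2 + y 1 ^ 2 :=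
        lt_of_lt_of_le (by have := norm_pos_iff.2 hy0; positivity) (zon_sq_le y)
      have h1 : ∀ᶠ n : ℕ in atTop, (z 0 ^ 2 + z 1 ^ 2) / (y 0 ^ 2 + y 1 ^ 2) ≤ (n : ℝ) :=
        tendsto_natCast_atTop_atTop.eventually_ge_atTop _
      filter_upwards [eventually_ge_atTop 1, h1] with n hn h1
      refine lt_of_le_of_lt (h_RAD Ω μ B hB _ _ ?_) hy
      have hn' : (0 : ℝ) < n := by exact_mod_cast hn
      simp only [Pi.smul_apply, smul_eq_mul, mul_pow, inv_pow, Real.sq_sqrt hn'.le]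
      rw [div_le_iff₀ hy2] at h1
      rw [← mul_add, inv_mul_le_iff₀ hn']
      exact h1
  -- the key inequality
  have hz1 : (fun _ => 1 : Pl) ≠ 0 := by
    intro h0
    have := congrFun h0 0
    simp at this
  set z : Pl := fun _ => 1 with hz
  obtain ⟨S, hS, hS2⟩ := evt h_MEA z
  have key : ∀ T : ℕ, 1 ≤ T → l ≤ l * h ((√(T : ℝ))⁻¹ • z) := by
    intro T hT
    have hT' : (0 : ℝ) < T := by exact_mod_cast hT
    set A : Set Ω := {ω | (fun q : Q1 => B (0 + ((T : ℝ) - 0) * ((q : ℚ≥0) : ℝ)) ω) ∈ S} with hA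
    have hAeq : A = {ω | LinkedInf (tr B ω 0 T) z} := by
      ext ω
      exact (hS2 B ω (hB.cont ω) 0 T hT'.le).symm
    have hAh : μ A = h ((√(T : ℝ))⁻¹ • z) := by
      rw [hAeq]
      exact scal h_MKV hB hT' z
    have h1 : ∀ n : ℕ, 1 ≤ n → l ≤ ∫⁻ ω in A, h ((√(n : ℝ))⁻¹ • (z - B T ω)) ∂μ := by
      intro n hn
      have hn' : (0 : ℝ) < n := by exact_mod_cast hn
      have hm := (h_MKV Ω μ B hB).2.2 Q1 (fun q => 0 + ((T : ℝ) - 0) * ((q : ℚ≥0) : ℝ)) T n
        hT'.le hn' (fun q => ⟨?_, ?_⟩) S hS z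
      · rw [← hm]
        have hTn : (0 : ℝ) < (T : ℝ) + n := by positivity
        have h2 := hll ((√((T : ℝ) + n))⁻¹ • z) (smul_ne_zero (by positivity) hz1)
        have h3 : h ((√((T : ℝ) + n))⁻¹ • z) = μ {ω | LinkedInf (tr B ω 0 ((T : ℝ) + n)) z} :=
          (scal h_MKV hB hTn z).symm
        rw [h3] at h2
        refine h2.trans (measure_mono ?_)
        intro ω hω
        refine ⟨?_, ?_⟩
        · have h4 : ω ∈ A := by
            rw [hAeq]
            exact LinkedInf.mono (tr_mono B ω le_rfl (by linarith)) hω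
          exact h4
        · exact LinkedInf.mono (tr_mono B ω hT'.le le_rfl) hω
      · have : (0 : ℝ) ≤ ((q : ℚ≥0) : ℝ) := by positivity
        have h5 : (0 : ℝ) ≤ T * ((q : ℚ≥0) : ℝ) := by positivity
        linarith
      · have h6 : ((q : ℚ≥0) : ℝ) ≤ 1 := by exact_mod_cast q.2
        have h7 : (T : ℝ) * ((q : ℚ≥0) : ℝ) ≤ T * 1 := by gcongr
        linarith
    have h2 : Tendsto (fun n : ℕ => ∫⁻ ω in A, h ((√(n : ℝ))⁻¹ • (z - B T ω)) ∂μ) atTop
        (𝓝 (∫⁻ _ in A, l ∂μ)) := by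
      refine tendsto_lintegral_of_dominated_convergence (fun _ => 1) ?_ ?_ ?_ ?_
      · intro n
        have h8 : Measurable fun ω => (√(n : ℝ))⁻¹ • (z - B T ω) := by
          have := hB.meas T hT'.le
          fun_prop
        exact hmeas.comp h8
      · intro n
        exact ae_of_all _ fun ω => hle _
      · simp
      · apply ae_restrict_of_ae
        have h3 := h_POL Ω μ B hB T (T + 1) hT' (by linarith) z
        filter_upwards [compl_mem_ae_iff.2 h3] with ω hω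
        refine hlim _ (sub_ne_zero.2 ?_)
        rintro hzB
        apply hω
        exact ⟨T, ⟨le_rfl, by linarith⟩, hzB.symm⟩
    rw [setLIntegral_const, hAh] at h2
    refine ge_of_tendsto h2 ?_
    filter_upwards [eventually_ge_atTop 1] with n hn
    exact h1 n hn
  have key2 : l ≤ l * l := by
    refine ge_of_tendsto (ENNReal.Tendsto.const_mul (hlim z hz1) (Or.inr hltop)) ?_
    filter_upwards [eventually_ge_atTop 1] with n hn
    exact key n hn
  by_cases h0 : l = 0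
  · right
    have h1 : l < 1 / 4 := by
      rw [h0]
      exact ENNReal.div_pos one_ne_zero (by norm_num)
    rw [hl, iInf_lt_iff] at h1
    obtain ⟨y, hy⟩ := h1
    rw [iInf_lt_iff] at hy
    obtain ⟨hy0, hy⟩ := hy
    have hy1 : 0 < ‖y‖ := norm_pos_iff.2 hy0
    refine ⟨‖y‖ / 2, by positivity, fun x hx => ?_⟩
    refine le_trans (h_RAD Ω μ B hB x y ?_) hy.le
    have h2 := zon_le_sq x
    have h3 := zon_sq_le y
    have h4 : ‖x‖ ^ 2 ≤ (‖y‖ / 2) ^ 2 := by gcongr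
    nlinarith [sq_nonneg ‖y‖]
  · left
    have h1 : 1 ≤ l := by
      have h2 : l * 1 ≤ l * l := by rwa [mul_one]
      exact (ENNReal.mul_le_mul_iff_right h0 hltop).1 h2
    intro x hx
    exact le_antisymm (hle x) (h1.trans (hll x hx))

end Pool.ADJ
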